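import Pool.Agent.W792.LL.Defs

/-!
Statements of the parts of the project LL (Lloyd model, MP_28b024_mp).
-/

namespace Pool.Agent.W792.LL

open MeasureTheory Filter
open scoped Topology

noncomputable section

/-! ## A. Operators -/

/-- The operators with continuous symbol. -/
def S_OPR : Prop :=
  ∀ (d : ℕ) (m m' : C(UnitAddTorus (Fin d), ℂ)),
    (∀ (u : l2 (Fin d → ℤ)) (x : Fin d → ℤ),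
      Summable (fun y => UnitAddTorus.mFourierCoeff m (x - y) * u y) ∧
      opr m u x = ∑' y, UnitAddTorus.mFourierCoeff m (x - y) * u y) ∧
    ‖opr m‖ ≤ ‖m‖ ∧ opr (m * m') = opr m * opr m' ∧ opr (m + m') = opr m + opr m' ∧
    (∀ a : ℂ, opr (a • m) = a • opr m) ∧ opr (1 : C(UnitAddTorus (Fin d), ℂ)) = 1 ∧
    (∀ x : Fin d → ℤ, ‖UnitAddTorus.mFourierCoeff m x‖ ≤ ‖m‖) ∧
    Summable (fun x : Fin d → ℤ => ‖UnitAddTorus.mFourierCoeff m x‖ ^ 2) ∧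
    ∑' x : Fin d → ℤ, ‖UnitAddTorus.mFourierCoeff m x‖ ^ 2 ≤ ‖m‖ ^ 2

/-- Diagonal operators. -/
def S_DIA : Prop :=
  ∀ (Γ : Type) (c : Γ → ℂ), (∀ x, ‖c x‖ ≤ 1) →
    (∀ (u : l2 Γ) (x : Γ), dia c u x = c x * u x) ∧ ‖dia c‖ ≤ 1

/-- Basic facts on `Zf`. -/
def S_ZF : Prop :=
  ∀ (d : ℕ) (m m' : C(UnitAddTorus (Fin d), ℂ)) (c : (Fin d → ℤ) → ℂ) (q : ℝ), 0 ≤ q → q < 1 →
    ‖m‖ ≤ q → ‖m'‖ ≤ q → (∀ x, ‖c x‖ ≤ 1) →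
    IsUnit (1 - opr m * dia c) ∧
    ‖Zf m c‖ ≤ 1 / (1 - q) ∧
    ‖Zf m c - Zf m' c‖ ≤ ‖m - m'‖ / (1 - q) ^ 2 ∧
    (∀ n₀ : ℕ, ‖Zf m c - ∑ n ∈ Finset.range (n₀ + 1),
      ((opr m * dia c) ^ n) (lp.single 2 (0 : Fin d → ℤ) (1 : ℂ)) 0‖ ≤ q ^ (n₀ + 1) / (1 - q)) ∧
    (1 - q ^ 2) / 4 ≤ 2 * (Zf m c).re - 1

/-- Measurability of `Zf` in the potential. -/
def S_MZ : Prop :=
  ∀ (d : ℕ) (m : C(UnitAddTorus (Fin d), ℂ)) (q : ℝ), 0 ≤ q → q < 1 → ‖m‖ ≤ q →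
    Measurable fun v : (Fin d → ℤ) → ℝ => Zf m (fun x => cay (v x))

/-! ## B. Random phases -/

/-- Moments of the Cayley transform of a Cauchy variable. -/
def S_CAY : Prop :=
  (∀ v : ℝ, ‖cay v‖ = 1) ∧ Continuous cay ∧
  (∀ v : ℝ, ‖1 - cay v‖ ^ 2 = 4 / (1 + v ^ 2) ∧ ‖1 - cay v‖ ^ 2 = 2 - 2 * (cay v).re) ∧
  ∀ k : ℕ, 0 < k → ∫ v, cay v ^ k ∂(ProbabilityTheory.cauchyMeasure 0 1) = 0

/-- Mean square of a homogeneous polynomial in the phases, by its coefficients on ordered words. -/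
def S_ORD : Prop :=
  ∀ (Γ : Type) [Countable Γ] [DecidableEq Γ] (n : ℕ) (F : Finset Γ) (a : (Fin n → Γ) → ℂ),
    ∫ v, ‖∑ w ∈ Fintype.piFinset (fun _ : Fin n => F), a w * ∏ i, cay (v (w i))‖ ^ 2 ∂(Pm Γ)
      ≤ n.factorial * ∑ w ∈ Fintype.piFinset (fun _ : Fin n => F), ‖a w‖ ^ 2

/-- Difference of two path expansions. -/
def S_PATH : Prop :=
  ∀ (Γ : Type) [AddCommGroup Γ] [DecidableEq Γ] (h h' : Γ →₀ ℂ) (e : ℝ), 0 ≤ e →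
    ∑ y ∈ h.support, ‖h y‖ ^ 2 ≤ 1 → ∑ y ∈ h'.support, ‖h' y‖ ^ 2 ≤ 1 →
    (∀ x, ‖h x - h' x‖ ≤ e) → ∀ (n : ℕ) (F : Finset Γ) (x : Γ),
      ∑ w ∈ Fintype.piFinset (fun _ : Fin n => F), ‖pth h n x w - pth h' n x w‖ ^ 2
        ≤ ((n : ℝ) * e) ^ 2

/-- Path expansion of the powers. -/
def S_EXP : Prop :=
  ∀ (d : ℕ) (h : (Fin d → ℤ) →₀ ℂ) (n : ℕ), ∃ F : Finset (Fin d → ℤ),
    ∀ F' : Finset (Fin d → ℤ), F ⊆ F' → ∀ c : (Fin d → ℤ) → ℂ, (∀ x, ‖c x‖ ≤ 1) →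
      ((opr (trig h) * dia c) ^ n) (lp.single 2 (0 : Fin d → ℤ) (1 : ℂ)) 0
        = ∑ w ∈ Fintype.piFinset (fun _ : Fin n => F'), pth h n 0 w * ∏ i, c (w i)

/-- Trigonometric polynomials are dense, and their Fourier coefficients. -/
def S_TRIG : Prop :=
  ∀ (d : ℕ), (∀ (m : C(UnitAddTorus (Fin d), ℂ)) (ε : ℝ), 0 < ε →
      ∃ h : (Fin d → ℤ) →₀ ℂ, ‖trig h - m‖ ≤ ε) ∧
    (∀ (h : (Fin d → ℤ) →₀ ℂ) (x : Fin d → ℤ), UnitAddTorus.mFourierCoeff (trig h) x = h x)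

/-- The phase lemma. -/
def S_PH : Prop :=
  ∀ q : ℝ, 0 ≤ q → q < 1 → ∀ δ : ℝ, 0 < δ → ∃ e : ℝ, 0 < e ∧
    ∀ (d : ℕ) (m m' : C(UnitAddTorus (Fin d), ℂ)), ‖m‖ ≤ q → ‖m'‖ ≤ q →
      (∀ x : Fin d → ℤ, ‖UnitAddTorus.mFourierCoeff m x - UnitAddTorus.mFourierCoeff m' x‖ ≤ e) →
      ∫ v, ‖Zf m (fun x => cay (v x)) - Zf m' (fun x => cay (v x))‖ ∂(Pm (Fin d → ℤ)) ≤ δ

/-! ## C. Averaging -/

/-- Dispersive estimate: uniform decay of the kernel of `exp (i M (-Δ))`. -/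
def S_OSC : Prop :=
  ∀ δ : ℝ, 0 < δ → ∃ M₀ : ℝ, ∀ M : ℝ, M₀ ≤ |M| → ∀ d : ℕ, 0 < d → ∀ x : Fin d → ℤ,
    ‖UnitAddTorus.mFourierCoeff
      (fun k : UnitAddTorus (Fin d) => Complex.exp (Complex.I * M * lap d k)) x‖ ≤ δ

/-- Averaging for one function. -/
def S_AVG0 : Prop :=
  ∀ (d : ℕ), 0 < d → ∀ (F : C(UnitAddTorus (Fin d) × UnitAddCircle, ℂ)) (δ : ℝ), 0 < δ →
    ∃ M₀ : ℕ, ∀ M : ℕ, M₀ ≤ M → ∀ x : Fin d → ℤ,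
      ‖UnitAddTorus.mFourierCoeff (fun k : UnitAddTorus (Fin d) =>
        F (k, ((M * lap d k / (2 * Real.pi) : ℝ) : UnitAddCircle))
          - ∫ φ in Set.Ioc (0 : ℝ) 1, F (k, (φ : UnitAddCircle))) x‖ ≤ δ

/-- Averaging for the symbols used, uniformly in the parameters. -/
def S_AVG : Prop :=
  ∀ (d : ℕ), 0 < d → ∀ (K : C(UnitAddTorus (Fin d), ℝ)) (s C B l₁ l₂ δ : ℝ), 0 ≤ s → 0 ≤ C →
    0 ≤ B → 0 < l₁ → 0 < δ → ∃ M₀ : ℕ, ∀ M : ℕ, M₀ ≤ M →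
    ∀ (ρ : Measure ℝ) [IsProbabilityMeasure ρ], ρ (Set.Icc (-C) C)ᶜ = 0 →
    ∀ lam : ℝ, l₁ ≤ lam → lam ≤ l₂ → ∀ z : ℂ, |z.re| ≤ B → 0 ≤ z.im → z.im ≤ 1 →
    ∀ x : Fin d → ℤ, ‖UnitAddTorus.mFourierCoeff (us ρ lam z (addOsc K s M)) x
      - UnitAddTorus.mFourierCoeff (us ((arc s).conv ρ) lam z K) x‖ ≤ δ

/-- Properties of `uf`. -/
def S_CON : Prop :=
  ∀ (ρ : Measure ℝ) [IsProbabilityMeasure ρ] (C : ℝ), 0 ≤ C → ρ (Set.Icc (-C) C)ᶜ = 0 →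
    ∀ (lam : ℝ), 0 < lam → ∀ (z : ℂ), 0 ≤ z.im →
    Continuous (uf ρ lam z) ∧
    (∀ t, ‖uf ρ lam z t‖ ≤ 1) ∧
    (∀ (s : ℝ), 0 ≤ s → IsProbabilityMeasure ((arc s).conv ρ) ∧
      ((arc s).conv ρ) (Set.Icc (-(s + C)) (s + C))ᶜ = 0 ∧
      (∀ t, uf ((arc s).conv ρ) lam z t
        = ∫ φ in Set.Ioc (0 : ℝ) 1, uf ρ lam z (t + s * Real.cos (2 * Real.pi * φ))) ∧
      ∀ (t D : ℝ), |t| + s + C + lam + ‖z‖ ≤ D →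
        ‖uf ((arc s).conv ρ) lam z t‖ ^ 2 ≤ 1 - 2 * lam ^ 2 * s ^ 2 / D ^ 4) ∧
    (∀ (t D : ℝ), |t| + lam + ‖z‖ ≤ D →
        ‖uf (Measure.dirac 0) lam z t‖ ^ 2 ≤ 1 - 4 * lam * z.im / D ^ 2) ∧
    (∀ t t' : ℝ, ‖uf ρ lam z t - uf ρ lam z t'‖ ≤ 2 / lam * |t - t'|) ∧
    (∀ (t : ℝ) (z' : ℂ), 0 ≤ z'.im → ‖uf ρ lam z t - uf ρ lam z' t‖ ≤ 2 / lam * ‖z - z'‖)

/-! ## D. The Green function -/

/-- The Green function in terms of `Zf`. -/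
def S_GZ : Prop :=
  ∀ (d : ℕ) (K : C(UnitAddTorus (Fin d), ℝ)) (lam : ℝ), 0 < lam → ∀ (v : (Fin d → ℤ) → ℝ) (z : ℂ),
    0 < z.im → (∃ w, Sol (hopK K) lam v z 0 w) ∧
      ∀ w, Sol (hopK K) lam v z 0 w → w 0 = gf K lam v z

/-- Representation of the Green function. -/
def S_REP : Prop :=
  ∀ (d : ℕ) (K : C(UnitAddTorus (Fin d), ℝ)) (lam : ℝ) (v : (Fin d → ℤ) → ℝ) (G : ℂ → ℂ),
    (∀ z : ℂ, 0 < z.im → ∃ w, Sol (hopK K) lam v z 0 w ∧ w 0 = G z) →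
    (∀ z : ℂ, 0 < z.im → 0 ≤ (G z).im ∧ ‖G z‖ ≤ 1 / z.im) ∧
    (∀ z z' : ℂ, 0 < z.im → 0 < z'.im → ‖G z - G z'‖ ≤ ‖z - z'‖ / (z.im * z'.im)) ∧
    ∀ η : ℝ, 0 < η → η ≤ 1 →
      Integrable (fun E : ℝ => (G ((E : ℂ) + η * Complex.I)).im) ∧
      ∫ E : ℝ, (G ((E : ℂ) + η * Complex.I)).im = Real.pi ∧
      (∀ z : ℂ, 0 < z.im → G (z + η * Complex.I) = (1 / Real.pi : ℝ) *
        ∫ E : ℝ, ((G ((E : ℂ) + η * Complex.I)).im : ℂ) / ((E : ℂ) - z)) ∧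
      ∀ B : ℝ, 1 ≤ B → ∫ E in {E : ℝ | B ≤ |E|}, (G ((E : ℂ) + η * Complex.I)).im
        ≤ 2 * Real.pi * (1 + ‖K‖ + |lam * v 0|) / B

/-! ## E. Measure theory -/

/-- Almost sure convergence from summable mean differences. -/
def S_MT : Prop :=
  ∀ (Ω : Type) [MeasurableSpace Ω] (μ : Measure Ω) [IsProbabilityMeasure μ]
    (P : ℕ → ℝ → Ω → ℝ) (p : ℕ → ℝ), (∀ n, Measurable (Function.uncurry (P n))) →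
    (∀ n, 0 < p n) → Antitone p → (∀ n, ∃ C : ℝ, ∀ E ω, |P n E ω| ≤ C) →
    (∀ n : ℕ, ∀ E : ℝ, |E| ≤ n → ∫ ω, |P (n + 1) E ω - P n E ω| ∂μ ≤ p n / 4 ^ n) →
    (∀ n : ℕ, ∀ E : ℝ, |E| ≤ n → (μ {ω | P n E ω < p n}).toReal ≤ 1 / 4 ^ n) →
    ∀ᵐ ω ∂μ, (∀ B : ℕ, Summable fun n : ℕ =>
        ∫ E in Set.Icc (-(B : ℝ)) B, |P (n + 1) E ω - P n E ω|) ∧
      ∀ᵐ E : ℝ, ∃ L : ℝ, 0 < L ∧ Tendsto (fun n => P n E ω) atTop (𝓝 L)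

/-- The limit density. -/
def S_L1 : Prop :=
  ∀ (g : ℕ → ℝ → ℝ) (C : ℝ), (∀ n, Continuous (g n)) → (∀ n E, 0 ≤ g n E) →
    (∀ n, Integrable (g n)) → (∀ n, ∫ E, g n E ≤ Real.pi) →
    (∀ B : ℕ, Summable fun n : ℕ => ∫ E in Set.Icc (-(B : ℝ)) B, |g (n + 1) E - g n E|) →
    (∀ n, ∀ B : ℝ, 1 ≤ B → ∫ E in {E : ℝ | B ≤ |E|}, g n E ≤ C / B) →
    (∀ᵐ E : ℝ, ∃ L : ℝ, 0 < L ∧ Tendsto (fun n => g n E) atTop (𝓝 L)) →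
    ∃ h : ℝ → ℝ, Integrable h ∧ (∀ᵐ E, 0 < h E) ∧ ∀ z : ℂ, 0 < z.im →
      Tendsto (fun n => ∫ E : ℝ, (g n E : ℂ) / ((E : ℂ) - z)) atTop
        (𝓝 (∫ E : ℝ, (h E : ℂ) / ((E : ℂ) - z)))

/-- Shift of the origin. -/
def S_SHIFT : Prop :=
  ∀ (d : ℕ) (K : (Fin d → ℤ) → ℂ) (lam : ℝ) (Q : ((Fin d → ℤ) → ℝ) → Prop),
    (∀ᵐ v ∂(Pm (Fin d → ℤ)), Q v) → (∀ᵐ v ∂(Pm (Fin d → ℤ)), ∀ x : Fin d → ℤ, Q fun y => v (y + x))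
    ∧ ∀ (v : (Fin d → ℤ) → ℝ) (z : ℂ) (x : Fin d → ℤ) (w : (Fin d → ℤ) → ℂ),
      Sol K lam v z x w ↔ Sol K lam (fun y => v (y + x)) z 0 (fun y => w (y + x))

/-- The final theorem. -/
def S_FINAL : Prop :=
  ∀ ε : ℝ, 0 < ε → ∃ f : ℝ → ℝ, Continuous f ∧ (∀ t, |f t - t| ≤ ε) ∧ ∀ d : ℕ, 0 < d →
    ∀ lam : ℝ, 0 < lam → ∀ᵐ v ∂(Pm (Fin d → ℤ)), PureAC (ker f d) lam v

end

end Pool.Agent.W792.LL
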