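import Pool.Agent.W792.LL.Stm

/-!
Diagonal operators on `ℓ²`.
-/

namespace Pool.Agent.W792.LL.DiaP

open Pool.Agent.W792.LL

noncomputable section

theorem exists_dia {Γ : Type} (c : Γ → ℂ) (hc : ∀ x, ‖c x‖ ≤ 1) :
    ∃ D : l2 Γ →L[ℂ] l2 Γ, (∀ (u : l2 Γ) (x : Γ), D u x = c x * u x) ∧ ‖D‖ ≤ 1 := by
  have hmem : ∀ u : l2 Γ, Memℓp (fun x => c x * u x) 2 := by
    intro u
    have h1 := lp.memℓp u
    rw [memℓp_gen_iff (by norm_num)] at h1 ⊢
    refine Summable.of_nonneg_of_le (fun x => by positivity) (fun x => ?_) h1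
    rw [norm_mul]
    have : ‖c x‖ * ‖u x‖ ≤ ‖u x‖ := by nlinarith [hc x, norm_nonneg (u x)]
    gcongr
  let L : l2 Γ →ₗ[ℂ] l2 Γ :=
    { toFun := fun u => ⟨fun x => c x * u x, hmem u⟩
      map_add' := by
        intro u u'
        ext x
        change c x * ((u + u' : l2 Γ) x) = c x * u x + c x * u' x
        rw [lp.coeFn_add, Pi.add_apply, mul_add]
      map_smul' := by
        intro a u
        ext x
        change c x * ((a • u : l2 Γ) x) = a * (c x * u x)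
        rw [lp.coeFn_smul, Pi.smul_apply, smul_eq_mul]; ring }
  have hL : ∀ u : l2 Γ, ‖L u‖ ≤ 1 * ‖u‖ := by
    intro u
    rw [one_mul]
    have h2 : (0 : ℝ) < (2 : ENNReal).toReal := by norm_num
    rw [lp.norm_eq_tsum_rpow h2, lp.norm_eq_tsum_rpow h2]
    refine Real.rpow_le_rpow (tsum_nonneg fun _ => by positivity) ?_ (by norm_num)
    have hs1 := (memℓp_gen_iff h2).1 (lp.memℓp (L u))
    have hs2 := (memℓp_gen_iff h2).1 (lp.memℓp u)
    refine hs1.tsum_le_tsum (fun x => ?_) hs2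
    change ‖c x * u x‖ ^ _ ≤ _
    rw [norm_mul]
    have : ‖c x‖ * ‖u x‖ ≤ ‖u x‖ := by nlinarith [hc x, norm_nonneg (u x)]
    gcongr
  exact ⟨L.mkContinuous 1 hL, fun u x => rfl, LinearMap.mkContinuous_norm_le _ zero_le_one _⟩

theorem main : Pool.Agent.W792.LL.S_DIA := by
  intro Γ c hc
  obtain ⟨D, hD, hn⟩ := exists_dia c hc
  have hex : ∃ D : l2 Γ →L[ℂ] l2 Γ, ∀ u x, D u x = c x * u x := ⟨D, hD⟩
  have hd : ∀ (u : l2 Γ) (x : Γ), dia c u x = c x * u x := by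
    unfold dia
    rw [dif_pos hex]
    exact Classical.choose_spec hex
  have he : dia c = D := by
    ext u x
    rw [hd, hD]
  exact ⟨hd, he ▸ hn⟩

end

end Pool.Agent.W792.LL.DiaP
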