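import Pool.Agent.W792.LL.F3

/-!
Conclusion of the project LL.
-/

namespace Pool.Agent.W792.LL.Fn

open MeasureTheory Filter Pool.Agent.W792.LL
open scoped Topology

noncomputable section

/-- Recursive choice of small parameters. -/
def etaR (a : ℕ → ℝ) : ℕ → ℝ
  | 0 => min 1 (a 0)
  | (n + 1) => min (etaR a n / 2) (a (n + 1))

theorem exists_eta (a : ℕ → ℝ) (ha : ∀ n, 0 < a n) : ∃ η : ℕ → ℝ, (∀ n, 0 < η n) ∧
    (∀ n, η n ≤ 1) ∧ Antitone η ∧ (∀ n, η n ≤ a n) ∧ Tendsto η atTop (𝓝 0) := by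
  have h0 : ∀ n, 0 < etaR a n := by
    intro n
    induction n with
    | zero => exact lt_min one_pos (ha 0)
    | succ n ih => exact lt_min (by linarith) (ha _)
  have h1 : ∀ n, etaR a n ≤ (1 / 2) ^ n := by
    intro n
    induction n with
    | zero => simp [etaR]
    | succ n ih =>
      refine (min_le_left _ _).trans ?_
      rw [pow_succ]; linarith
  refine ⟨etaR a, h0, fun n => (h1 n).trans (pow_le_one₀ (by norm_num) (by norm_num)),
    antitone_nat_of_succ_le fun n => (min_le_left _ _).trans (by linarith [h0 n]), ?_, ?_⟩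
  · intro n
    cases n with
    | zero => exact min_le_right _ _
    | succ n => exact min_le_right _ _
  · refine squeeze_zero (fun n => (h0 n).le) h1 ?_
    exact tendsto_pow_atTop_nhds_zero_of_lt_one (by norm_num) (by norm_num)

/-- Factor between the phase function and the imaginary part of the Green function. -/
def Av {d : ℕ} (lam : ℝ) (v : (Fin d → ℤ) → ℝ) : ℝ := ‖1 - cay (v 0)‖ ^ 2 / (4 * lam)

theorem Av_pos (hCay : S_CAY) {d : ℕ} {lam : ℝ} (hlam : 0 < lam) (v : (Fin d → ℤ) → ℝ) :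
    0 < Av lam v := by
  unfold Av
  rw [(hCay.2.2.1 (v 0)).1]
  positivity

theorem gf_im (hCay : S_CAY) {ε : ℝ} (hε : 0 < ε) {d : ℕ} {lam : ℝ} (hlam : 0 < lam)
    (v : (Fin d → ℤ) → ℝ) (z : ℂ) :
    (gf (Kd (fT ε hε) d) lam v z).im = Av lam v * Ph ε hε d lam z v := by
  have h1 := (hCay.2.2.1 (v 0)).2
  unfold gf Av Ph Zi
  set Z := Zf (us (Measure.dirac 0) lam z (Kd (fT ε hε) d)) fun x => cay (v x) with hZ
  set c := cay (v 0) with hc
  set N : ℝ := ‖1 - c‖ ^ 2 with hN
  have h2 : (1 / (2 * Complex.I * lam) : ℂ) = -(Complex.I * ((1 / (2 * lam) : ℝ) : ℂ)) := by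
    push_cast
    have : (lam : ℂ) ≠ 0 := by exact_mod_cast hlam.ne'
    field_simp
    rw [Complex.I_sq]; ring
  rw [h2]
  simp only [Complex.mul_im, Complex.mul_re, Complex.neg_re, Complex.neg_im, Complex.I_re,
    Complex.I_im, Complex.ofReal_re, Complex.ofReal_im, Complex.sub_re, Complex.sub_im,
    Complex.one_re, Complex.one_im, Complex.conj_re, Complex.conj_im]
  have h3 : c.re = 1 - N / 2 := by linarith
  rw [h3]
  field_simp
  ring

theorem exists_adm {d : ℕ} (hd : 0 < d) {lam : ℝ} (hlam : 0 < lam) : ∃ n₀ : ℕ,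
    ∀ (n : ℕ) (z : ℂ), |z.re| ≤ n + 1 → 0 ≤ z.im → z.im ≤ 1 → Adm (n + n₀) d lam z := by
  refine ⟨d + ⌈lam⌉₊ + ⌈1 / lam⌉₊, fun n z h1 h2 h3 => ?_⟩
  have h4 := Nat.le_ceil lam
  have h5 := Nat.le_ceil (1 / lam)
  have hn : (0 : ℝ) ≤ n := by positivity
  have hd' : (0 : ℝ) ≤ d := by positivity
  have hc1 : (0 : ℝ) ≤ (⌈lam⌉₊ : ℝ) := by positivity
  have hc2 : (0 : ℝ) ≤ (⌈1 / lam⌉₊ : ℝ) := by positivity
  refine ⟨hd, by omega, ?_, ?_, ?_, h2, h3⟩
  · push_cast
    rw [div_le_iff₀ (by positivity)]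
    have h6 : 1 / lam ≤ (n : ℝ) + (d + ⌈lam⌉₊ + ⌈1 / lam⌉₊) + 1 := by linarith
    rw [div_le_iff₀ hlam] at h6
    linarith
  · push_cast; linarith
  · push_cast; linarith

theorem main_zero (hC : S_CON) (hA : S_AVG) (hP : S_PH) (hZ : S_ZF) (hM : S_MZ) (hCay : S_CAY)
    (hG : S_GZ) (hR : S_REP) (hMT : S_MT) (hL : S_L1)
    {ε : ℝ} (hε : 0 < ε) {d : ℕ} (hd : 0 < d) {lam : ℝ} (hlam : 0 < lam) :
    ∀ᵐ v ∂(Pm (Fin d → ℤ)), ∃ h : ℝ → ℝ, Integrable h ∧ (∀ᵐ E, 0 < h E) ∧ ∀ z : ℂ, 0 < z.im →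
      gf (Kd (fT ε hε) d) lam v z = ∫ E : ℝ, (h E : ℂ) / ((E : ℂ) - z) := by
  obtain ⟨n₀, hn₀⟩ := exists_adm hd hlam
  set qa : ℕ → ℝ := fun n => Real.sqrt (1 - 2 * lam ^ 2 * sq ε (n + n₀) ^ 2 / Dn ε (n + n₀) ^ 4)
    with hqa
  have hqa1 : ∀ n, qa n < 1 := fun n =>
    sqrt_lt (arc_gap_pos hε (hn₀ n 0 (by simp; positivity) (by simp) (by simp)))
  set a : ℕ → ℝ := fun n => lam * (1 - qa n) ^ 2 * pp ε (n + n₀) / (8 * 4 ^ n) with ha
  have ha0 : ∀ n, 0 < a n := by
    intro n
    have h1 : 0 < 1 - qa n := by linarith [hqa1 n]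
    have h2 := pp_pos hε (n + n₀)
    simp only [ha]
    positivity
  obtain ⟨η, hη0, hη1, hηa, hηle, hηt⟩ := exists_eta a ha0
  -- representation for every potential
  have hrep := fun v : (Fin d → ℤ) → ℝ => hR d (Kd (fT ε hε) d) lam v
    (gf (Kd (fT ε hε) d) lam v) (fun z hz => by
      obtain ⟨⟨w, hw⟩, h2⟩ := hG d (Kd (fT ε hε) d) lam hlam v z hz
      exact ⟨w, hw, h2 w hw⟩)
  set zz : ℕ → ℝ → ℂ := fun n E => (E : ℂ) + η n * Complex.I with hzz
  have zre : ∀ n E, (zz n E).re = E := by intro n E; simp [hzz]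
  have zim : ∀ n E, (zz n E).im = η n := by intro n E; simp [hzz]
  have zpos : ∀ n E, 0 < (zz n E).im := fun n E => by rw [zim]; exact hη0 n
  have hadm : ∀ (k n : ℕ) (E : ℝ), |E| ≤ k + 1 → Adm (k + n₀) d lam (zz n E) := by
    intro k n E hE
    exact hn₀ k _ (by rw [zre]; exact hE) (zpos n E).le (by rw [zim]; exact hη1 n)
  -- continuity in the energy
  have hcont : ∀ n v, Continuous fun E : ℝ => (gf (Kd (fT ε hε) d) lam v (zz n E)).im := by
    intro n v
    refine Complex.continuous_im.comp ?_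
    have hlip : LipschitzWith (Real.toNNReal (1 / (η n * η n)))
        (fun E : ℝ => gf (Kd (fT ε hε) d) lam v (zz n E)) := by
      refine LipschitzWith.of_dist_le_mul fun E E' => ?_
      rw [dist_eq_norm, dist_eq_norm, Real.coe_toNNReal _ (by have := hη0 n; positivity)]
      refine ((hrep v).2.1 _ _ (zpos n E) (zpos n E')).trans ?_
      rw [zim, zim]
      have h3 : ‖zz n E - zz n E'‖ = ‖E - E'‖ := by
        simp only [hzz]
        rw [add_sub_add_right_eq_sub, ← Complex.ofReal_sub, Complex.norm_real]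
      rw [h3]
      apply le_of_eq; ring
    exact hlip.continuous
  have hPhc : ∀ n v, Continuous fun E : ℝ => Ph ε hε d lam (zz n E) v := by
    intro n v
    have h1 : (fun E : ℝ => Ph ε hε d lam (zz n E) v)
        = fun E => (Av lam v)⁻¹ * (gf (Kd (fT ε hε) d) lam v (zz n E)).im := by
      funext E
      rw [gf_im hCay hε hlam, inv_mul_cancel_left₀ (Av_pos hCay hlam v).ne']
    rw [h1]
    exact (hcont n v).const_mul _
  have hPhm : ∀ n E, Measurable (Ph ε hε d lam (zz n E)) := by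
    intro n E
    obtain ⟨k, hk⟩ := exists_nat_ge |E|
    have h1 := (integrable_Zi hC hZ hM hCay hε (hadm k n E (by linarith)) (zpos n E)).1
    exact (((Complex.measurable_re.comp h1).const_mul 2).sub_const 1)
  set P : ℕ → ℝ → ((Fin d → ℤ) → ℝ) → ℝ := fun n E v =>
    if |E| ≤ (n : ℝ) + 1 then Ph ε hε d lam (zz n E) v else 0 with hPdef
  have hPe : ∀ (n : ℕ) (E : ℝ) v, |E| ≤ (n : ℝ) + 1 → P n E v = Ph ε hε d lam (zz n E) v := by
    intro n E v h
    simp only [hPdef]
    rw [if_pos h]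
  have hmt := hMT ((Fin d → ℤ) → ℝ) (Pm (Fin d → ℤ)) P (fun n => pp ε (n + n₀)) ?_
    (fun n => pp_pos hε _) (fun m n hmn => pp_antitone hε (by omega)) ?_ ?_ ?_
  rotate_left
  · -- measurability
    intro n
    have h1 : Measurable (Function.uncurry fun (E : ℝ) (v : (Fin d → ℤ) → ℝ) =>
        Ph ε hε d lam (zz n E) v) :=
      measurable_uncurry_of_continuous_of_measurable (fun v => hPhc n v) (fun E => hPhm n E)
    have h2 : MeasurableSet {p : ℝ × ((Fin d → ℤ) → ℝ) | |p.1| ≤ (n : ℝ) + 1} :=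
      measurableSet_le (measurable_fst.abs) measurable_const
    exact Measurable.ite h2 h1 measurable_const
  · -- boundedness
    intro n
    have hg : 0 < 4 * lam * η n / Dn ε (n + n₀) ^ 2 := by
      have := hη0 n
      have := Dn_pos hε (n + n₀)
      positivity
    have hq := sqrt_lt hg
    set q := Real.sqrt (1 - 4 * lam * η n / Dn ε (n + n₀) ^ 2) with hqdef
    refine ⟨2 * (1 / (1 - q)) + 1, fun E v => ?_⟩
    by_cases hE : |E| ≤ (n : ℝ) + 1
    · rw [hPe n E v hE]
      have h1 := Us_dirac_le hC hε (hadm n n E hE) (fT_id hε)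
      rw [zim, ← hqdef] at h1
      have h2 := (hZ d _ _ (fun x => cay (v x)) q (Real.sqrt_nonneg _) hq h1 h1
        (fun x => (hCay.1 _).le)).2.1
      have h3 := Complex.abs_re_le_norm (Zi ε hε d lam (zz n E) v)
      have h4 : |Ph ε hε d lam (zz n E) v| ≤ 2 * |(Zi ε hε d lam (zz n E) v).re| + 1 := by
        unfold Ph
        calc |2 * (Zi ε hε d lam (zz n E) v).re - 1|
            ≤ |2 * (Zi ε hε d lam (zz n E) v).re| + |(1 : ℝ)| := abs_sub _ _
          _ = _ := by rw [abs_mul, abs_two, abs_one]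
      have h5 : ‖Zi ε hε d lam (zz n E) v‖ ≤ 1 / (1 - q) := h2
      linarith
    · simp only [hPdef]
      rw [if_neg hE, abs_zero]
      have : 0 < 1 - q := by linarith
      positivity
  · -- mean differences
    intro n E hE
    have hE1 : |E| ≤ (n : ℝ) + 1 := by linarith
    have hE2 : |E| ≤ ((n + 1 : ℕ) : ℝ) + 1 := by push_cast; linarith
    have h1 : ∫ v, |P (n + 1) E v - P n E v| ∂(Pm (Fin d → ℤ))
        = ∫ v, |Ph ε hε d lam (zz (n + 1) E) v - Ph ε hε d lam (zz n E) v|
          ∂(Pm (Fin d → ℤ)) := by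
      refine integral_congr_ae (ae_of_all _ fun v => ?_)
      simp only
      rw [hPe (n + 1) E v hE2, hPe n E v hE1]
    rw [h1]
    refine (mean_diff hC hA hP hZ hM hCay hε (hadm n (n + 1) E hE1) (zpos _ _)
      (hadm n n E hE1) (zpos _ _)).trans ?_
    have h2 : ‖zz (n + 1) E - zz n E‖ ≤ η n := by
      have h3 : zz (n + 1) E - zz n E = ((η (n + 1) - η n : ℝ) : ℂ) * Complex.I := by
        simp only [hzz]; push_cast; ring
      rw [h3, norm_mul, Complex.norm_I, mul_one, Complex.norm_real, Real.norm_eq_abs, abs_le]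
      have := hη0 (n + 1)
      have := hη0 n
      have := hηa (Nat.le_succ n)
      constructor <;> linarith
    have h4 : 0 < 1 - qa n := by linarith [hqa1 n]
    have h5 := pp_pos hε (n + n₀)
    have h6 : (4 / lam * ‖zz (n + 1) E - zz n E‖) / (1 - qa n) ^ 2
        ≤ pp ε (n + n₀) / (2 * 4 ^ n) := by
      calc (4 / lam * ‖zz (n + 1) E - zz n E‖) / (1 - qa n) ^ 2
          ≤ (4 / lam * a n) / (1 - qa n) ^ 2 := by
            gcongr
            exact h2.trans (hηle n)
        _ = pp ε (n + n₀) / (2 * 4 ^ n) := by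
            simp only [ha]
            field_simp
            ring
    have h7 : pp ε (n + n₀) / (8 * 8 ^ (n + n₀)) ≤ pp ε (n + n₀) / (2 * 4 ^ n) := by
      apply div_le_div_of_nonneg_left h5.le (by positivity)
      have h8 : (4 : ℝ) ^ n ≤ 8 ^ (n + n₀) := by
        calc (4 : ℝ) ^ n ≤ 8 ^ n := pow_le_pow_left₀ (by norm_num) (by norm_num) n
          _ ≤ 8 ^ (n + n₀) := pow_le_pow_right₀ (by norm_num) (by omega)
      have h9 : (0 : ℝ) < 4 ^ n := by positivity
      linarith
    have h10 : pp ε (n + n₀) / 4 ^ n = pp ε (n + n₀) / (2 * 4 ^ n) + pp ε (n + n₀) / (2 * 4 ^ n) := by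
      field_simp; ring
    rw [h10]
    exact add_le_add h7 h6
  · -- rarely small
    intro n E hE
    have hE1 : |E| ≤ (n : ℝ) + 1 := by linarith
    have h1 : {v | P n E v < pp ε (n + n₀)} = {v | Ph ε hε d lam (zz n E) v < pp ε (n + n₀)} := by
      ext v
      change P n E v < _ ↔ _
      rw [hPe n E v hE1]
      rfl
    rw [h1]
    refine (rarely_small hC hA hP hZ hM hCay hε (hadm n n E hE1) (zpos _ _)).trans ?_
    apply one_div_le_one_div_of_le (by positivity)
    have h8 : (4 : ℝ) ^ n ≤ 8 ^ (n + n₀) := by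
      calc (4 : ℝ) ^ n ≤ 8 ^ n := pow_le_pow_left₀ (by norm_num) (by norm_num) n
        _ ≤ 8 ^ (n + n₀) := pow_le_pow_right₀ (by norm_num) (by omega)
    have h9 : (0 : ℝ) < 8 ^ (n + n₀) := by positivity
    linarith
  · -- conclusion for almost every potential
    filter_upwards [hmt] with v hv
    obtain ⟨hv1, hv2⟩ := hv
    obtain ⟨r1, r2, r3⟩ := hrep v
    have hA0 := Av_pos hCay hlam v
    set g : ℕ → ℝ → ℝ := fun n E => (gf (Kd (fT ε hε) d) lam v (zz n E)).im with hg
    have hgP : ∀ n E, g n E = Av lam v * Ph ε hε d lam (zz n E) v := fun n E =>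
      gf_im hCay hε hlam v _
    have hsum : ∀ B : ℕ, Summable fun n : ℕ =>
        ∫ E in Set.Icc (-(B : ℝ)) B, |g (n + 1) E - g n E| := by
      intro B
      have s1 := hv1 B
      rw [← summable_nat_add_iff B] at s1 ⊢
      refine (s1.mul_left (Av lam v)).congr fun n => ?_
      rw [← integral_const_mul]
      refine setIntegral_congr_fun measurableSet_Icc fun E hE => ?_
      have hE1 : |E| ≤ (B : ℝ) := abs_le.2 hE
      have hnn : (0 : ℝ) ≤ n := by positivity
      change Av lam v * |P (n + B + 1) E v - P (n + B) E v| = |g (n + B + 1) E - g (n + B) E|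
      rw [hPe (n + B + 1) E v (by push_cast; linarith), hPe (n + B) E v (by push_cast; linarith),
        hgP, hgP, ← mul_sub, abs_mul, abs_of_pos hA0]
    have hlim : ∀ᵐ E : ℝ, ∃ L : ℝ, 0 < L ∧ Tendsto (fun n => g n E) atTop (𝓝 L) := by
      filter_upwards [hv2] with E hE
      obtain ⟨L, hL0, hL1⟩ := hE
      refine ⟨Av lam v * L, mul_pos hA0 hL0, ?_⟩
      refine (hL1.const_mul (Av lam v)).congr' ?_
      obtain ⟨k, hk⟩ := exists_nat_ge |E|
      filter_upwards [eventually_ge_atTop k] with n hn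
      have : (k : ℝ) ≤ n := by exact_mod_cast hn
      rw [hgP, hPe n E v (by linarith)]
    obtain ⟨h, hh1, hh2, hh3⟩ := hL g (2 * Real.pi * (1 + ‖Kd (fT ε hε) d‖ + |lam * v 0|))
      (fun n => hcont n v) (fun n E => (r1 _ (zpos n E)).1)
      (fun n => (r3 (η n) (hη0 n) (hη1 n)).1)
      (fun n => (r3 (η n) (hη0 n) (hη1 n)).2.1.le) hsum
      (fun n B hB => (r3 (η n) (hη0 n) (hη1 n)).2.2.2 B hB) hlim
    · refine ⟨fun E => h E / Real.pi, hh1.div_const _, ?_, fun z hz => ?_⟩
      · filter_upwards [hh2] with E hE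
        have := Real.pi_pos
        positivity
      · have t1 := hh3 z hz
        have t2 : Tendsto (fun n => gf (Kd (fT ε hε) d) lam v (z + η n * Complex.I)) atTop
            (𝓝 (gf (Kd (fT ε hε) d) lam v z)) := by
          rw [tendsto_iff_norm_sub_tendsto_zero]
          have t3 : Tendsto (fun n => η n / (z.im * z.im)) atTop (𝓝 0) := by
            have := hηt.div_const (z.im * z.im)
            simpa using this
          refine squeeze_zero (fun n => norm_nonneg _) (fun n => ?_) t3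
          have him : (z + η n * Complex.I).im = z.im + η n := by simp
          have hp : 0 < (z + η n * Complex.I).im := by rw [him]; linarith [hη0 n]
          refine (r2 _ _ hp hz).trans ?_
          rw [him, add_sub_cancel_left, norm_mul, Complex.norm_I, mul_one, Complex.norm_real,
            Real.norm_eq_abs, abs_of_pos (hη0 n)]
          apply div_le_div_of_nonneg_left (hη0 n).le (by positivity)
          have := hη0 n
          nlinarith
        have t4 : ∀ n, gf (Kd (fT ε hε) d) lam v (z + η n * Complex.I)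
            = ((1 / Real.pi : ℝ) : ℂ) * ∫ E : ℝ, (g n E : ℂ) / ((E : ℂ) - z) := fun n =>
          (r3 (η n) (hη0 n) (hη1 n)).2.2.1 z hz
        have t5 : Tendsto (fun n => gf (Kd (fT ε hε) d) lam v (z + η n * Complex.I)) atTop
            (𝓝 (((1 / Real.pi : ℝ) : ℂ) * ∫ E : ℝ, (h E : ℂ) / ((E : ℂ) - z))) := by
          simp only [t4]
          exact t1.const_mul _
        have t6 := tendsto_nhds_unique t2 t5
        rw [t6, ← integral_const_mul]
        refine integral_congr_ae (ae_of_all _ fun E => ?_)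
        simp only
        push_cast
        ring

/-- The final theorem from the parts. -/
theorem final (hC : S_CON) (hA : S_AVG) (hP : S_PH) (hZ : S_ZF) (hM : S_MZ) (hCay : S_CAY)
    (hG : S_GZ) (hR : S_REP) (hMT : S_MT) (hL : S_L1) (hS : S_SHIFT) : S_FINAL := by
  intro ε hε
  refine ⟨fT ε hε, (fT ε hε).continuous, fT_id hε, fun d hd lam hlam => ?_⟩
  have h1 := main_zero hC hA hP hZ hM hCay hG hR hMT hL hε hd hlam
  obtain ⟨h2, h3⟩ := hS d (ker (fT ε hε) d) lam _ h1
  filter_upwards [h2] with v hv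
  intro x
  obtain ⟨h, k1, k2, k3⟩ := hv x
  refine ⟨h, k1, k2, fun z hz => ⟨?_, fun w hw => ?_⟩⟩
  · obtain ⟨⟨w, hw⟩, -⟩ := hG d (Kd (fT ε hε) d) lam hlam (fun y => v (y + x)) z hz
    refine ⟨fun y => w (y - x), (h3 v z x _).2 ?_⟩
    have : (fun y => w (y + x - x)) = w := by funext y; rw [add_sub_cancel_right]
    rw [this]
    exact hw
  · have h4 := (h3 v z x w).1 hw
    have h5 := (hG d (Kd (fT ε hε) d) lam hlam (fun y => v (y + x)) z hz).2 _ h4
    rw [k3 z hz] at h5
    rw [← h5, zero_add]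

end

end Pool.Agent.W792.LL.Fn
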