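import Pool.Agent.W792.LL.F4
import Pool.Agent.W792.LL.Dia
import Pool.Agent.W918.LL.Opr
import Pool.Agent.W762.LL.Zf
import Pool.Agent.W978.LL.Mz
import Pool.Agent.W335.LLCay
import Pool.Agent.W395.LL.Ord
import Pool.Agent.W240.LL.PATH
import Pool.Agent.W193.LL.Exp
import Pool.Agent.W308.LL.Trig
import Pool.Agent.W215.LLPh
import Pool.Agent.W688.LL.Osc
import Pool.Agent.W191.LL.Avg0
import Pool.Agent.W320.LL.Gz
import Pool.Agent.W583.LL.Mt
import Pool.Agent.W22.LL.L1
import Pool.Agent.W613.LLShift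
import Pool.Agent.W52.LL.Avg
import Pool.Agent.W52.LL.Conv

/-!
Assembly of the project LL.
-/

namespace Pool.Agent.W792.LL.AllP

open Pool.Agent.W792.LL

theorem final (hR : S_REP) : S_FINAL :=
  have hO : S_OPR := Pool.Agent.W918.LL.main
  have hD : S_DIA := Pool.Agent.W792.LL.DiaP.main
  have hCay : S_CAY := Pool.Agent.W335.LLCay.main
  have hZ : S_ZF := Pool.Agent.W762.LL.main hO hD
  have hM : S_MZ := Pool.Agent.W978.LL.main hO hD hZ hCay
  have hT : S_TRIG := Pool.Agent.W308.LL.Trig.main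
  have hE : S_EXP := Pool.Agent.W193.LL.Exp.main hO hD hT
  have hP : S_PH := Pool.Agent.W215.LLPh.main hO hD hZ hM hCay (Pool.Agent.W395.LLOrd.main hCay)
    Pool.Agent.W240.LL.PATH.main hE hT
  have hC : S_CON := Pool.Agent.W52.LL.Conv.main
  have hA : S_AVG := Pool.Agent.W52.LL.Avg.main (Pool.Agent.W191.LL.main
    Pool.Agent.W688.LL.Osc.main) hC
  Pool.Agent.W792.LL.Fn.final hC hA hP hZ hM hCay (Pool.Agent.W320.LL.main hO hD hCay hC) hR
    Pool.Agent.W583.LL.main Pool.Agent.W22.LL.main Pool.Agent.W613.LLShift.main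

end Pool.Agent.W792.LL.AllP
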