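import Mathlib

/-!
Definitions for the project LL (Lloyd model with kinetic energy `f(-Δ)`, MP_28b024_mp).
-/

namespace Pool.Agent.W792.LL

open MeasureTheory

noncomputable section

/-- `ℓ²`. -/
abbrev l2 (Γ : Type) := lp (fun _ : Γ => ℂ) 2

/-- The symbol `∑ i (2 - 2 cos (2 π k_i))` of `-Δ` on `ℤ^d`. -/
def lap (d : ℕ) : C(UnitAddTorus (Fin d), ℝ) where
  toFun k := ∑ i, (2 - 2 * (fourier 1 (k i)).re)
  continuous_toFun := by fun_prop

open Classical in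
/-- The translation invariant operator on `ℓ²(ℤ^d)` with symbol `m` (it exists by `S_OPR`). -/
def opr {d : ℕ} (m : C(UnitAddTorus (Fin d), ℂ)) : l2 (Fin d → ℤ) →L[ℂ] l2 (Fin d → ℤ) :=
  if h : ∃ T : l2 (Fin d → ℤ) →L[ℂ] l2 (Fin d → ℤ), ∀ u x,
      T u x = ∑' y, UnitAddTorus.mFourierCoeff m (x - y) * u y
  then Classical.choose h else 0

open Classical in
/-- Multiplication by the bounded function `c` (it exists by `S_DIA`). -/
def dia {Γ : Type} (c : Γ → ℂ) : l2 Γ →L[ℂ] l2 Γ :=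
  if h : ∃ D : l2 Γ →L[ℂ] l2 Γ, ∀ u x, D u x = c x * u x then Classical.choose h else 0

/-- `⟨δ₀, (1 - U c)⁻¹ δ₀⟩`. -/
def Zf {d : ℕ} (m : C(UnitAddTorus (Fin d), ℂ)) (c : (Fin d → ℤ) → ℂ) : ℂ :=
  (Ring.inverse (1 - opr m * dia c)) (lp.single 2 (0 : Fin d → ℤ) (1 : ℂ)) 0

/-- Cayley transform of the potential. -/
def cay (v : ℝ) : ℂ := ((v : ℂ) + Complex.I) / ((v : ℂ) - Complex.I)

/-- Law of i.i.d. standard Cauchy variables. -/
def Pm (Γ : Type) : Measure (Γ → ℝ) :=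
  Measure.infinitePi fun _ : Γ => ProbabilityTheory.cauchyMeasure 0 1

instance (Γ : Type) : IsProbabilityMeasure (Pm Γ) := by unfold Pm; infer_instance

/-- The function `u` of the averaged model. -/
def uf (ρ : Measure ℝ) (lam : ℝ) (z : ℂ) (t : ℝ) : ℂ :=
  1 + 2 * lam * Complex.I * ∫ a, (1 / ((t : ℂ) + (a : ℂ) - lam * Complex.I - z)) ∂ρ

open Classical in
/-- A function as a continuous map (junk value `0`). -/
def toC {X : Type} [TopologicalSpace X] (f : X → ℂ) : C(X, ℂ) :=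
  if h : Continuous f then ⟨f, h⟩ else 0

/-- The symbol `u(K)`. -/
def us {d : ℕ} (ρ : Measure ℝ) (lam : ℝ) (z : ℂ) (K : C(UnitAddTorus (Fin d), ℝ)) :
    C(UnitAddTorus (Fin d), ℂ) := toC fun k => uf ρ lam z (K k)

/-- Law of `s cos (2 π φ)`, `φ` uniform. -/
def arc (s : ℝ) : Measure ℝ :=
  Measure.map (fun φ : ℝ => s * Real.cos (2 * Real.pi * φ)) (volume.restrict (Set.Ioc (0 : ℝ) 1))

/-- `K + s cos (M lap)`. -/
def addOsc {d : ℕ} (K : C(UnitAddTorus (Fin d), ℝ)) (s M : ℝ) : C(UnitAddTorus (Fin d), ℝ) where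
  toFun k := K k + s * Real.cos (M * lap d k)
  continuous_toFun := by fun_prop

/-- Law of the sum of the levels `n, ..., n + m - 1`. -/
def rho (s : ℕ → ℝ) : ℕ → ℕ → Measure ℝ
  | _, 0 => Measure.dirac 0
  | n, (m + 1) => (arc (s n)).conv (rho s (n + 1) m)

/-- Coefficients of the path expansion. -/
def pth {Γ : Type} [AddCommGroup Γ] [DecidableEq Γ] (h : Γ → ℂ) : (n : ℕ) → Γ → (Fin n → Γ) → ℂ
  | 0, x, _ => if x = 0 then 1 else 0
  | (n + 1), x, w => h (x - w 0) * pth h n (w 0) (fun i => w i.succ)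

/-- The trigonometric polynomial with coefficients `h`. -/
def trig {d : ℕ} (h : (Fin d → ℤ) →₀ ℂ) : C(UnitAddTorus (Fin d), ℂ) :=
  h.sum fun n c => c • UnitAddTorus.mFourier n

/-- `w` is the square summable solution of `(H - z) w = δ_x`, `H = K * · + lam V`. -/
def Sol {d : ℕ} (K : (Fin d → ℤ) → ℂ) (lam : ℝ) (v : (Fin d → ℤ) → ℝ) (z : ℂ) (x : Fin d → ℤ)
    (w : (Fin d → ℤ) → ℂ) : Prop :=
  Summable (fun y => ‖w y‖ ^ 2) ∧ ∀ y, ∑' y', K (y - y') * w y' + (lam * v y : ℝ) * w y - z * w y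
    = if y = x then 1 else 0

/-- The spectral measure of every `δ_x` is absolutely continuous with a density positive almost
everywhere. -/
def PureAC {d : ℕ} (K : (Fin d → ℤ) → ℂ) (lam : ℝ) (v : (Fin d → ℤ) → ℝ) : Prop :=
  ∀ x : Fin d → ℤ, ∃ h : ℝ → ℝ, Integrable h ∧ (∀ᵐ E, 0 < h E) ∧ ∀ z : ℂ, 0 < z.im →
    (∃ w, Sol K lam v z x w) ∧ ∀ w, Sol K lam v z x w → w x = ∫ E : ℝ, (h E : ℂ) / ((E : ℂ) - z)

/-- The kernel of the operator with symbol `K`. -/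
def hopK {d : ℕ} (K : C(UnitAddTorus (Fin d), ℝ)) (x : Fin d → ℤ) : ℂ :=
  UnitAddTorus.mFourierCoeff (fun k => (K k : ℂ)) x

/-- The Green function at the origin. -/
def gf {d : ℕ} (K : C(UnitAddTorus (Fin d), ℝ)) (lam : ℝ) (v : (Fin d → ℤ) → ℝ) (z : ℂ) : ℂ :=
  (1 / (2 * Complex.I * lam)) * (1 - (starRingEnd ℂ) (cay (v 0))
    - (‖1 - cay (v 0)‖ ^ 2 : ℝ) * Zf (us (Measure.dirac 0) lam z K) (fun x => cay (v x)))

/-- The hopping kernel of `f(-Δ)` on `ℤ^d`. -/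
def ker (f : ℝ → ℝ) (d : ℕ) (x : Fin d → ℤ) : ℂ :=
  UnitAddTorus.mFourierCoeff (fun k => (f (lap d k) : ℂ)) x

end

end Pool.Agent.W792.LL
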