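import Pool.Agent.W792.LL.Stm

/-!
Levels, contraction gaps, one step.
-/

namespace Pool.Agent.W792.LL.Fn

open MeasureTheory Filter Pool.Agent.W792.LL
open scoped Topology

noncomputable section

/-- A function of the Laplacian. -/
def Kd (f : C(ℝ, ℝ)) (d : ℕ) : C(UnitAddTorus (Fin d), ℝ) := f.comp (lap d)

/-- Add one level. -/
def nxt (f : C(ℝ, ℝ)) (s M : ℝ) : C(ℝ, ℝ) := ⟨fun t => f t + s * Real.cos (M * t), by fun_prop⟩

theorem Kd_nxt (f : C(ℝ, ℝ)) (s M : ℝ) (d : ℕ) : Kd (nxt f s M) d = addOsc (Kd f d) s M := rfl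

theorem lap_bound (d : ℕ) (k : UnitAddTorus (Fin d)) : |lap d k| ≤ 4 * d := by
  have h : ∀ i, |2 - 2 * (fourier 1 (k i)).re| ≤ (4 : ℝ) := by
    intro i
    have h1 : |(fourier 1 (k i)).re| ≤ 1 := by
      refine (Complex.abs_re_le_norm _).trans ?_
      rw [fourier_apply]
      exact (Circle.norm_coe _).le
    rw [abs_le] at h1 ⊢
    constructor <;> linarith [h1.1, h1.2]
  change |∑ i, (2 - 2 * (fourier 1 (k i)).re)| ≤ _
  refine (Finset.abs_sum_le_sum_abs _ _).trans ?_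
  refine (Finset.sum_le_sum fun i _ => h i).trans ?_
  simp [mul_comm]

/-- Sizes of the levels. -/
def sq (ε : ℝ) (n : ℕ) : ℝ := ε / 2 ^ (n + 1)

/-- Bound for the denominators. -/
def Dn (ε : ℝ) (n : ℕ) : ℝ := 8 * (n + 1) + 4 * ε + 8

/-- Admissible parameters at stage `n`. -/
def Adm (n d : ℕ) (lam : ℝ) (z : ℂ) : Prop :=
  0 < d ∧ d ≤ n + 1 ∧ 1 / ((n : ℝ) + 1) ≤ lam ∧ lam ≤ (n : ℝ) + 1 ∧ |z.re| ≤ (n : ℝ) + 1 ∧
    0 ≤ z.im ∧ z.im ≤ 1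

theorem Adm.lam_pos {n d : ℕ} {lam : ℝ} {z : ℂ} (h : Adm n d lam z) : 0 < lam :=
  lt_of_lt_of_le (by positivity) h.2.2.1

theorem Adm.succ {n d : ℕ} {lam : ℝ} {z : ℂ} (h : Adm n d lam z) : Adm (n + 1) d lam z := by
  obtain ⟨h1, h2, h3, h4, h5, h6, h7⟩ := h
  refine ⟨h1, by omega, le_trans ?_ h3, ?_, ?_, h6, h7⟩
  · push_cast
    apply one_div_le_one_div_of_le <;> [positivity; linarith]
  · push_cast; linarith
  · push_cast; linarith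

theorem sq_pos {ε : ℝ} (hε : 0 < ε) (n : ℕ) : 0 < sq ε n := by unfold sq; positivity

theorem sq_le {ε : ℝ} (hε : 0 < ε) (n : ℕ) : sq ε n ≤ ε := by
  unfold sq
  apply div_le_self hε.le
  exact one_le_pow₀ (by norm_num)

theorem Adm.D_le {ε : ℝ} (hε : 0 < ε) {n d : ℕ} {lam : ℝ} {z : ℂ} (h : Adm n d lam z)
    {t s : ℝ} (ht : |t| ≤ 4 * d + ε) (hs : s ≤ ε) : |t| + s + ε + lam + ‖z‖ ≤ Dn ε n := by
  obtain ⟨h1, h2, h3, h4, h5, h6, h7⟩ := h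
  have hz : ‖z‖ ≤ |z.re| + |z.im| := Complex.norm_le_abs_re_add_abs_im z
  rw [abs_of_nonneg h6] at hz
  have hd : (d : ℝ) ≤ n + 1 := by exact_mod_cast h2
  unfold Dn
  linarith

theorem us_apply (hC : S_CON) {d : ℕ} {ρ : Measure ℝ} [IsProbabilityMeasure ρ] {C lam : ℝ} {z : ℂ}
    (h0 : 0 ≤ C) (hρ : ρ (Set.Icc (-C) C)ᶜ = 0) (hl : 0 < lam) (hz : 0 ≤ z.im)
    (K : C(UnitAddTorus (Fin d), ℝ)) (k : UnitAddTorus (Fin d)) :
    us ρ lam z K k = uf ρ lam z (K k) := by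
  have hc : Continuous fun k => uf ρ lam z (K k) := (hC ρ C h0 hρ lam hl z hz).1.comp K.continuous
  unfold us toC
  rw [dif_pos hc]
  rfl

theorem us_norm_le (hC : S_CON) {d : ℕ} {ρ : Measure ℝ} [IsProbabilityMeasure ρ] {C lam : ℝ} {z : ℂ}
    (h0 : 0 ≤ C) (hρ : ρ (Set.Icc (-C) C)ᶜ = 0) (hl : 0 < lam) (hz : 0 ≤ z.im)
    (K : C(UnitAddTorus (Fin d), ℝ)) {g : ℝ} (h : ∀ k, ‖uf ρ lam z (K k)‖ ^ 2 ≤ 1 - g) :
    ‖us ρ lam z K‖ ≤ Real.sqrt (1 - g) := by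
  rw [ContinuousMap.norm_le _ (Real.sqrt_nonneg _)]
  intro k
  rw [us_apply hC h0 hρ hl hz]
  exact Real.le_sqrt_of_sq_le (h k)

theorem Kd_bound {ε : ℝ} {f : C(ℝ, ℝ)} (hf : ∀ t, |f t - t| ≤ ε) (d : ℕ)
    (k : UnitAddTorus (Fin d)) : |Kd f d k| ≤ 4 * d + ε := by
  have h1 := hf (lap d k)
  have h2 := lap_bound d k
  change |f (lap d k)| ≤ _
  calc |f (lap d k)| = |(f (lap d k) - lap d k) + lap d k| := by ring_nf
    _ ≤ |f (lap d k) - lap d k| + |lap d k| := abs_add_le _ _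
    _ ≤ _ := by linarith

theorem gap_arc (hC : S_CON) {ε : ℝ} (hε : 0 < ε) {n d : ℕ} {lam : ℝ} {z : ℂ} (h : Adm n d lam z)
    {f : C(ℝ, ℝ)} (hf : ∀ t, |f t - t| ≤ ε) {ρ : Measure ℝ} [IsProbabilityMeasure ρ]
    (hρ : ρ (Set.Icc (-ε) ε)ᶜ = 0) {s : ℝ} (hs : 0 ≤ s) (hs' : s ≤ ε) (k : UnitAddTorus (Fin d)) :
    ‖uf ((arc s).conv ρ) lam z (Kd f d k)‖ ^ 2 ≤ 1 - 2 * lam ^ 2 * s ^ 2 / Dn ε n ^ 4 :=
  ((hC ρ ε hε.le hρ lam h.lam_pos z h.2.2.2.2.2.1).2.2.1 s hs).2.2.2 _ _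
    (h.D_le hε (Kd_bound hf d k) hs')

theorem gap_dirac (hC : S_CON) {ε : ℝ} (hε : 0 < ε) {n d : ℕ} {lam : ℝ} {z : ℂ}
    (h : Adm n d lam z) {f : C(ℝ, ℝ)} (hf : ∀ t, |f t - t| ≤ ε) (k : UnitAddTorus (Fin d)) :
    ‖uf (Measure.dirac 0) lam z (Kd f d k)‖ ^ 2 ≤ 1 - 4 * lam * z.im / Dn ε n ^ 2 := by
  have hd : (Measure.dirac (0 : ℝ)) (Set.Icc (-ε) ε)ᶜ = 0 := by
    rw [Measure.dirac_apply' _ (measurableSet_Icc.compl)]
    simp [hε.le]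
  refine (hC (Measure.dirac 0) ε hε.le hd lam h.lam_pos z h.2.2.2.2.2.1).2.2.2.1 _ _ ?_
  have := h.D_le hε (Kd_bound hf d k) (le_refl ε)
  linarith

theorem dirac_supp {ε : ℝ} (hε : 0 < ε) : (Measure.dirac (0 : ℝ)) (Set.Icc (-ε) ε)ᶜ = 0 := by
  rw [Measure.dirac_apply' _ (measurableSet_Icc.compl)]
  simp [hε.le]

theorem rho_prop (hC : S_CON) {ε : ℝ} (hε : 0 < ε) (m : ℕ) : ∀ n : ℕ,
    IsProbabilityMeasure (rho (sq ε) n m) ∧
      (rho (sq ε) n m) (Set.Icc (-(ε / 2 ^ n)) (ε / 2 ^ n))ᶜ = 0 := by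
  induction m with
  | zero =>
    intro n
    refine ⟨by unfold rho; infer_instance, ?_⟩
    exact dirac_supp (by positivity)
  | succ m ih =>
    intro n
    obtain ⟨h1, h2⟩ := ih (n + 1)
    have h3 := (hC (rho (sq ε) (n + 1) m) (ε / 2 ^ (n + 1)) (by positivity) h2 1 one_pos 0
      (by simp)).2.2.1 (sq ε n) (sq_pos hε n).le
    refine ⟨h3.1, ?_⟩
    have h4 : sq ε n + ε / 2 ^ (n + 1) = ε / 2 ^ n := by unfold sq; field_simp; ring
    have := h3.2.1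
    rw [h4] at this
    exact this

theorem rho_supp (hC : S_CON) {ε : ℝ} (hε : 0 < ε) (n m : ℕ) :
    (rho (sq ε) n m) (Set.Icc (-ε) ε)ᶜ = 0 := by
  refine measure_mono_null (Set.compl_subset_compl.2 ?_) (rho_prop hC hε m n).2
  have : ε / 2 ^ n ≤ ε := div_le_self hε.le (one_le_pow₀ (by norm_num))
  exact Set.Icc_subset_Icc (by linarith) this

/-- The property used to choose `M` at stage `n`. -/
def Good (ε δ : ℝ) (n : ℕ) (f : C(ℝ, ℝ)) (M : ℕ) : Prop :=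
  ∀ (d : ℕ) (lam : ℝ) (z : ℂ), Adm n d lam z → ∀ m : ℕ, (m = 0 → 1 / 2 ^ (n + 1) ≤ z.im) →
    ∫ v, ‖Zf (us (rho (sq ε) (n + 1) m) lam z (Kd (nxt f (sq ε n) M) d)) (fun x => cay (v x))
      - Zf (us (rho (sq ε) n (m + 1)) lam z (Kd f d)) (fun x => cay (v x))‖
        ∂(Pm (Fin d → ℤ)) ≤ δ

theorem exists_good (hC : S_CON) (hA : S_AVG) (hP : S_PH) {ε δ : ℝ} (hε : 0 < ε) (hδ : 0 < δ)
    (n : ℕ) (f : C(ℝ, ℝ)) (hf : ∀ t, |f t - t| ≤ ε - ε / 2 ^ n) : ∃ M : ℕ, Good ε δ n f M := by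
  have hD : 0 < Dn ε n := by unfold Dn; positivity
  have hn : (0 : ℝ) < (n : ℝ) + 1 := by positivity
  set a : ℝ := 2 * (1 / ((n : ℝ) + 1)) ^ 2 * (sq ε (n + 1)) ^ 2 / Dn ε n ^ 4 with ha
  set b : ℝ := 4 * (1 / ((n : ℝ) + 1)) * (1 / 2 ^ (n + 1)) / Dn ε n ^ 2 with hb
  have ha0 : 0 < a := by
    have := sq_pos hε (n + 1)
    positivity
  have hb0 : 0 < b := by positivity
  set q : ℝ := Real.sqrt (1 - min a b) with hq
  have hq1 : q < 1 := by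
    rw [hq, Real.sqrt_lt' one_pos]
    have : 0 < min a b := lt_min ha0 hb0
    linarith
  obtain ⟨e, he, hPH⟩ := hP q (Real.sqrt_nonneg _) hq1 δ hδ
  have hch : ∀ d : ℕ, ∃ M₀ : ℕ, 0 < d → ∀ M : ℕ, M₀ ≤ M →
    ∀ (ρ : Measure ℝ) [IsProbabilityMeasure ρ], ρ (Set.Icc (-ε) ε)ᶜ = 0 →
    ∀ lam : ℝ, 1 / ((n : ℝ) + 1) ≤ lam → lam ≤ (n : ℝ) + 1 → ∀ z : ℂ, |z.re| ≤ (n : ℝ) + 1 →
    0 ≤ z.im → z.im ≤ 1 →
    ∀ x : Fin d → ℤ, ‖UnitAddTorus.mFourierCoeff (us ρ lam z (addOsc (Kd f d) (sq ε n) M)) x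
      - UnitAddTorus.mFourierCoeff (us ((arc (sq ε n)).conv ρ) lam z (Kd f d)) x‖ ≤ e := by
    intro d
    by_cases hd : 0 < d
    · obtain ⟨M₀, hM⟩ := hA d hd (Kd f d) (sq ε n) ε ((n : ℝ) + 1) (1 / ((n : ℝ) + 1))
        ((n : ℝ) + 1) e (sq_pos hε n).le hε.le hn.le (by positivity) he
      exact ⟨M₀, fun _ => hM⟩
    · exact ⟨0, fun h => absurd h hd⟩
  choose M₀ hM₀ using hch
  refine ⟨(Finset.range (n + 2)).sup M₀, ?_⟩
  intro d lam z hadm m hm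
  obtain ⟨h1, h2, h3, h4, h5, h6, h7⟩ := id hadm
  haveI := (rho_prop hC hε m (n + 1)).1
  have hsupp := rho_supp hC hε (n + 1) m
  have hcoef := hM₀ d h1 ((Finset.range (n + 2)).sup M₀)
    (Finset.le_sup (f := M₀) (Finset.mem_range.2 (by omega))) (rho (sq ε) (n + 1) m) hsupp lam h3
    h4 z h5 h6 h7
  have hlam := hadm.lam_pos
  -- bound of the function at level n and n + 1
  have hf0 : ∀ t, |f t - t| ≤ ε := fun t => (hf t).trans (by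
    have : 0 ≤ ε / 2 ^ n := by positivity
    linarith)
  have hf1 : ∀ t, |nxt f (sq ε n) (((Finset.range (n + 2)).sup M₀ : ℕ) : ℝ) t - t| ≤ ε := by
    intro t
    change |f t + sq ε n * Real.cos _ - t| ≤ ε
    have h8 : |sq ε n * Real.cos ((((Finset.range (n + 2)).sup M₀ : ℕ) : ℝ) * t)| ≤ sq ε n := by
      rw [abs_mul, abs_of_pos (sq_pos hε n)]
      exact mul_le_of_le_one_right (sq_pos hε n).le (Real.abs_cos_le_one _)
    have h9 : sq ε n ≤ ε / 2 ^ n := by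
      unfold sq
      rw [pow_succ]
      apply div_le_div_of_nonneg_left hε.le (by positivity)
      have : (0 : ℝ) < 2 ^ n := by positivity
      linarith
    calc |f t + sq ε n * Real.cos _ - t| = |(f t - t) + sq ε n * Real.cos
          ((((Finset.range (n + 2)).sup M₀ : ℕ) : ℝ) * t)| := by ring_nf
      _ ≤ |f t - t| + |sq ε n * Real.cos _| := abs_add_le _ _
      _ ≤ ε := by linarith [hf t]
  refine hPH d _ _ ?_ ?_ hcoef
  · -- level n + 1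
    refine us_norm_le hC hε.le hsupp hlam h6 _ fun k => ?_
    rcases Nat.eq_zero_or_pos m with hm0 | hm0
    · subst hm0
      refine (gap_dirac hC hε hadm hf1 k).trans ?_
      have hy := hm rfl
      have : b ≤ 4 * lam * z.im / Dn ε n ^ 2 := by
        rw [hb]
        gcongr
      linarith [min_le_right a b]
    · obtain ⟨m', rfl⟩ : ∃ m', m = m' + 1 := ⟨m - 1, by omega⟩
      haveI := (rho_prop hC hε m' (n + 1 + 1)).1
      refine (gap_arc hC hε hadm hf1 (rho_supp hC hε (n + 1 + 1) m') (sq_pos hε (n + 1)).le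
        (sq_le hε (n + 1)) k).trans ?_
      have : a ≤ 2 * lam ^ 2 * sq ε (n + 1) ^ 2 / Dn ε n ^ 4 := by
        rw [ha]
        gcongr
      linarith [min_le_left a b]
  · -- level n
    haveI := (rho_prop hC hε (m + 1) n).1
    refine us_norm_le hC hε.le (rho_supp hC hε n (m + 1)) hlam h6 _ fun k => ?_
    refine (gap_arc hC hε hadm hf0 hsupp (sq_pos hε n).le (sq_le hε n) k).trans ?_
    have h10 : sq ε (n + 1) ≤ sq ε n := by
      unfold sq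
      apply div_le_div_of_nonneg_left hε.le (by positivity)
      exact pow_le_pow_right₀ (by norm_num) (by omega)
    have : a ≤ 2 * lam ^ 2 * sq ε n ^ 2 / Dn ε n ^ 4 := by
      rw [ha]
      have := (sq_pos hε (n + 1)).le
      gcongr
    linarith [min_le_left a b]

end

end Pool.Agent.W792.LL.Fn
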