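import Pool.Agent.W792.LL.F1

/-!
The sequence of levels and the chain estimate.
-/

namespace Pool.Agent.W792.LL.Fn

open MeasureTheory Filter Pool.Agent.W792.LL
open scoped Topology

noncomputable section

/-- Positivity constants. -/
def pp (ε : ℝ) (n : ℕ) : ℝ := sq ε n ^ 2 / (4 * ((n : ℝ) + 1) ^ 2 * Dn ε n ^ 4)

/-- Errors of the steps. -/
def de (ε : ℝ) (n : ℕ) : ℝ := pp ε n / (64 * 8 ^ n)

theorem Dn_pos {ε : ℝ} (hε : 0 < ε) (n : ℕ) : 0 < Dn ε n := by unfold Dn; positivity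

theorem pp_pos {ε : ℝ} (hε : 0 < ε) (n : ℕ) : 0 < pp ε n := by
  have := sq_pos hε n
  have := Dn_pos hε n
  unfold pp; positivity

theorem de_pos {ε : ℝ} (hε : 0 < ε) (n : ℕ) : 0 < de ε n := by
  have := pp_pos hε n
  unfold de; positivity

theorem pp_antitone {ε : ℝ} (hε : 0 < ε) : Antitone (pp ε) := by
  refine antitone_nat_of_succ_le fun n => ?_
  have h1 := sq_pos hε (n + 1)
  have h2 : sq ε (n + 1) ≤ sq ε n := by
    unfold sq
    apply div_le_div_of_nonneg_left hε.le (by positivity)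
    exact pow_le_pow_right₀ (by norm_num) (by omega)
  have h3 := Dn_pos hε n
  have h4 : Dn ε n ≤ Dn ε (n + 1) := by unfold Dn; push_cast; linarith
  unfold pp
  push_cast
  gcongr
  linarith

theorem sum_de_le {ε : ℝ} (hε : 0 < ε) (n m : ℕ) :
    ∑ j ∈ Finset.range m, de ε (n + j) ≤ pp ε n / (32 * 8 ^ n) := by
  have h1 : ∀ j ∈ Finset.range m, de ε (n + j) ≤ pp ε n / (64 * 8 ^ n) * (1 / 8) ^ j := by
    intro j _
    have h2 := pp_antitone hε (Nat.le_add_right n j)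
    have h3 := pp_pos hε n
    unfold de
    calc pp ε (n + j) / (64 * 8 ^ (n + j)) ≤ pp ε n / (64 * 8 ^ (n + j)) := by gcongr
      _ = pp ε n / (64 * 8 ^ n) * (1 / 8) ^ j := by
        rw [pow_add, one_div, inv_pow]; field_simp
  refine (Finset.sum_le_sum h1).trans ?_
  rw [← Finset.mul_sum]
  have h4 : ∑ j ∈ Finset.range m, ((1 : ℝ) / 8) ^ j ≤ 2 := by
    have h5 : ∑ j ∈ Finset.range m, ((1 : ℝ) / 8) ^ j = (1 - (1 / 8) ^ m) * (8 / 7) := by
      rw [geom_sum_eq (by norm_num)]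
      field_simp; ring
    rw [h5]
    have : (0 : ℝ) ≤ (1 / 8) ^ m := by positivity
    linarith
  have h6 := pp_pos hε n
  calc pp ε n / (64 * 8 ^ n) * ∑ j ∈ Finset.range m, ((1 : ℝ) / 8) ^ j
      ≤ pp ε n / (64 * 8 ^ n) * 2 := by gcongr
    _ = pp ε n / (32 * 8 ^ n) := by field_simp; ring

open Classical in
/-- Choice of the frequency. -/
def Mch (ε : ℝ) (n : ℕ) (f : C(ℝ, ℝ)) : ℕ :=
  if h : ∃ M, Good ε (de ε n) n f M then Classical.choose h else 0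

/-- The functions of the levels. -/
def fs (ε : ℝ) : ℕ → C(ℝ, ℝ)
  | 0 => ContinuousMap.id ℝ
  | (n + 1) => nxt (fs ε n) (sq ε n) (Mch ε n (fs ε n))

theorem fs_succ (ε : ℝ) (n : ℕ) (t : ℝ) :
    fs ε (n + 1) t = fs ε n t + sq ε n * Real.cos ((Mch ε n (fs ε n) : ℝ) * t) := rfl

theorem sq_eq (ε : ℝ) (n : ℕ) : sq ε n = ε / 2 ^ n - ε / 2 ^ (n + 1) := by
  unfold sq; field_simp; ring

theorem fs_step {ε : ℝ} (hε : 0 < ε) (n : ℕ) (t : ℝ) :
    |fs ε (n + 1) t - fs ε n t| ≤ ε / 2 ^ n - ε / 2 ^ (n + 1) := by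
  rw [fs_succ, add_sub_cancel_left, abs_mul, abs_of_pos (sq_pos hε n), ← sq_eq]
  exact mul_le_of_le_one_right (sq_pos hε n).le (Real.abs_cos_le_one _)

theorem fs_diff {ε : ℝ} (hε : 0 < ε) (n m : ℕ) (t : ℝ) :
    |fs ε (n + m) t - fs ε n t| ≤ ε / 2 ^ n - ε / 2 ^ (n + m) := by
  induction m with
  | zero => simp
  | succ m ih =>
    have h1 := fs_step hε (n + m) t
    calc |fs ε (n + (m + 1)) t - fs ε n t|
        = |(fs ε (n + m + 1) t - fs ε (n + m) t) + (fs ε (n + m) t - fs ε n t)| := by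
          rw [← add_assoc]; ring_nf
      _ ≤ _ := abs_add_le _ _
      _ ≤ (ε / 2 ^ (n + m) - ε / 2 ^ (n + m + 1)) + (ε / 2 ^ n - ε / 2 ^ (n + m)) :=
          add_le_add h1 ih
      _ = ε / 2 ^ n - ε / 2 ^ (n + (m + 1)) := by rw [← add_assoc]; ring

theorem fs_id {ε : ℝ} (hε : 0 < ε) (n : ℕ) (t : ℝ) : |fs ε n t - t| ≤ ε - ε / 2 ^ n := by
  have := fs_diff hε 0 n t
  simpa [fs] using this

theorem fs_id' {ε : ℝ} (hε : 0 < ε) (n : ℕ) (t : ℝ) : |fs ε n t - t| ≤ ε := by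
  have := fs_id hε n t
  have h2 : 0 ≤ ε / 2 ^ n := by positivity
  linarith

theorem good_fs (hC : S_CON) (hA : S_AVG) (hP : S_PH) {ε : ℝ} (hε : 0 < ε) (n : ℕ) :
    Good ε (de ε n) n (fs ε n) (Mch ε n (fs ε n)) := by
  have h := exists_good hC hA hP hε (de_pos hε n) n (fs ε n) (fs_id hε n)
  unfold Mch
  rw [dif_pos h]
  exact Classical.choose_spec h

/-- Symbol with `m` levels averaged out. -/
def Us (ε : ℝ) (n m d : ℕ) (lam : ℝ) (z : ℂ) : C(UnitAddTorus (Fin d), ℂ) :=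
  us (rho (sq ε) n m) lam z (Kd (fs ε n) d)

/-- Its phase function. -/
def Zr (ε : ℝ) (n m d : ℕ) (lam : ℝ) (z : ℂ) (v : (Fin d → ℤ) → ℝ) : ℂ :=
  Zf (Us ε n m d lam z) (fun x => cay (v x))

theorem Us_arc_le (hC : S_CON) {ε : ℝ} (hε : 0 < ε) {n d : ℕ} {lam : ℝ} {z : ℂ}
    (h : Adm n d lam z) (m : ℕ) :
    ‖Us ε n (m + 1) d lam z‖ ≤ Real.sqrt (1 - 2 * lam ^ 2 * sq ε n ^ 2 / Dn ε n ^ 4) := by
  have := (rho_prop hC hε (m + 1) n).1
  have := (rho_prop hC hε m (n + 1)).1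
  refine us_norm_le hC hε.le (rho_supp hC hε n (m + 1)) h.lam_pos h.2.2.2.2.2.1 _ fun k => ?_
  exact gap_arc hC hε h (fs_id' hε n) (rho_supp hC hε (n + 1) m) (sq_pos hε n).le (sq_le hε n) k

theorem Us_dirac_le (hC : S_CON) {ε : ℝ} (hε : 0 < ε) {n d : ℕ} {lam : ℝ} {z : ℂ}
    (h : Adm n d lam z) {f : C(ℝ, ℝ)} (hf : ∀ t, |f t - t| ≤ ε) :
    ‖us (Measure.dirac 0) lam z (Kd f d)‖ ≤ Real.sqrt (1 - 4 * lam * z.im / Dn ε n ^ 2) :=
  us_norm_le hC hε.le (dirac_supp hε) h.lam_pos h.2.2.2.2.2.1 _ fun k => gap_dirac hC hε h hf k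

theorem arc_gap_pos {ε : ℝ} (hε : 0 < ε) {n d : ℕ} {lam : ℝ} {z : ℂ} (h : Adm n d lam z) :
    0 < 2 * lam ^ 2 * sq ε n ^ 2 / Dn ε n ^ 4 := by
  have := h.lam_pos
  have := sq_pos hε n
  have := Dn_pos hε n
  positivity

theorem sqrt_lt {g : ℝ} (hg : 0 < g) : Real.sqrt (1 - g) < 1 := by
  rw [Real.sqrt_lt' one_pos]; linarith

theorem Us_lt (hC : S_CON) {ε : ℝ} (hε : 0 < ε) {n d : ℕ} {lam : ℝ} {z : ℂ}
    (h : Adm n d lam z) (hz : 0 < z.im) (m : ℕ) :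
    ∃ q : ℝ, 0 ≤ q ∧ q < 1 ∧ ‖Us ε n m d lam z‖ ≤ q := by
  rcases m with _ | m
  · refine ⟨_, Real.sqrt_nonneg _, sqrt_lt ?_, Us_dirac_le hC hε h (fs_id' hε n)⟩
    have := h.lam_pos
    have := Dn_pos hε n
    positivity
  · exact ⟨_, Real.sqrt_nonneg _, sqrt_lt (arc_gap_pos hε h), Us_arc_le hC hε h m⟩

theorem integrable_Zr (hC : S_CON) (hZ : S_ZF) (hM : S_MZ) (hCay : S_CAY) {ε : ℝ} (hε : 0 < ε)
    {n d : ℕ} {lam : ℝ} {z : ℂ} (h : Adm n d lam z) (hz : 0 < z.im) (m : ℕ) :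
    Integrable (Zr ε n m d lam z) (Pm (Fin d → ℤ)) := by
  obtain ⟨q, h0, h1, h2⟩ := Us_lt hC hε h hz m
  refine Integrable.of_bound (C := 1 / (1 - q)) (hM d _ q h0 h1 h2).aestronglyMeasurable
    (ae_of_all _ fun v => ?_)
  exact (hZ d _ _ (fun x => cay (v x)) q h0 h1 h2 h2 (fun x => (hCay.1 _).le)).2.1

theorem chain (hC : S_CON) (hA : S_AVG) (hP : S_PH) (hZ : S_ZF) (hM : S_MZ) (hCay : S_CAY)
    {ε : ℝ} (hε : 0 < ε) (m : ℕ) : ∀ {n d : ℕ} {lam : ℝ} {z : ℂ}, Adm n d lam z →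
    1 / 2 ^ (n + m) ≤ z.im →
    ∫ v, ‖Zr ε (n + m) 0 d lam z v - Zr ε n m d lam z v‖ ∂(Pm (Fin d → ℤ))
      ≤ ∑ j ∈ Finset.range m, de ε (n + j) := by
  induction m with
  | zero => intro n d lam z h hz; simp
  | succ m ih =>
    intro n d lam z h hz
    have hz0 : 0 < z.im := lt_of_lt_of_le (by positivity) hz
    have e1 : n + (m + 1) = (n + 1) + m := by omega
    have hz' : 1 / 2 ^ (n + 1 + m) ≤ z.im := by rw [← e1]; exact hz
    have i1 := ih h.succ hz'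
    have i2 := good_fs hC hA hP hε n d lam z h m (by
      intro hm; subst hm; simpa using hz)
    have hadm' : Adm (n + 1 + m) d lam z := by
      clear ih i1 i2
      induction m with
      | zero => exact h.succ
      | succ m ih2 =>
        have : Adm (n + 1 + m) d lam z := by
          have key : ∀ k, Adm (n + 1 + k) d lam z := by
            intro k
            induction k with
            | zero => exact h.succ
            | succ k ik => exact ik.succ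
          exact key m
        exact this.succ
    have a1 := integrable_Zr hC hZ hM hCay hε hadm' hz0 0
    have a2 := integrable_Zr hC hZ hM hCay hε h.succ hz0 m
    have a3 := integrable_Zr hC hZ hM hCay hε h hz0 (m + 1)
    rw [Finset.sum_range_succ', e1]
    have e2 : ∑ j ∈ Finset.range m, de ε (n + (j + 1)) = ∑ j ∈ Finset.range m, de ε (n + 1 + j) :=
      Finset.sum_congr rfl fun j _ => by congr 1; omega
    rw [e2, add_zero]
    calc ∫ v, ‖Zr ε (n + 1 + m) 0 d lam z v - Zr ε n (m + 1) d lam z v‖ ∂(Pm (Fin d → ℤ))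
        ≤ ∫ v, (‖Zr ε (n + 1 + m) 0 d lam z v - Zr ε (n + 1) m d lam z v‖
            + ‖Zr ε (n + 1) m d lam z v - Zr ε n (m + 1) d lam z v‖) ∂(Pm (Fin d → ℤ)) := by
          refine integral_mono (a1.sub a3).norm ((a1.sub a2).norm.add (a2.sub a3).norm) fun v => ?_
          exact norm_sub_le_norm_sub_add_norm_sub _ _ _
      _ = ∫ v, ‖Zr ε (n + 1 + m) 0 d lam z v - Zr ε (n + 1) m d lam z v‖ ∂(Pm (Fin d → ℤ))
          + ∫ v, ‖Zr ε (n + 1) m d lam z v - Zr ε n (m + 1) d lam z v‖ ∂(Pm (Fin d → ℤ)) :=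
          integral_add (a1.sub a2).norm (a2.sub a3).norm
      _ ≤ _ := add_le_add i1 i2

end

end Pool.Agent.W792.LL.Fn
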