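import Pool.Agent.W792.LL.F2

/-!
The limit operator and the mean estimates.
-/

namespace Pool.Agent.W792.LL.Fn

open MeasureTheory Filter Pool.Agent.W792.LL
open scoped Topology

noncomputable section

theorem fs_eq (ε : ℝ) (n : ℕ) (t : ℝ) :
    fs ε n t = t + ∑ j ∈ Finset.range n, sq ε j * Real.cos ((Mch ε j (fs ε j) : ℝ) * t) := by
  induction n with
  | zero => simp [fs]
  | succ n ih => rw [fs_succ, ih, Finset.sum_range_succ]; ring

theorem summable_sq {ε : ℝ} : Summable (sq ε) := by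
  have : sq ε = fun n => (ε / 2) * (1 / 2) ^ n := by
    funext n
    unfold sq
    rw [pow_succ, one_div, inv_pow]; field_simp
  rw [this]
  exact (summable_geometric_of_lt_one (by norm_num) (by norm_num)).mul_left _

/-- The limit function. -/
def fT (ε : ℝ) (hε : 0 < ε) : C(ℝ, ℝ) where
  toFun t := t + ∑' j, sq ε j * Real.cos ((Mch ε j (fs ε j) : ℝ) * t)
  continuous_toFun := by
    refine continuous_id.add (continuous_tsum (u := sq ε) (fun j => by fun_prop) summable_sq ?_)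
    intro j t
    rw [Real.norm_eq_abs, abs_mul, abs_of_pos (sq_pos hε j)]
    exact mul_le_of_le_one_right (sq_pos hε j).le (Real.abs_cos_le_one _)

theorem fs_tendsto {ε : ℝ} (hε : 0 < ε) (t : ℝ) :
    Tendsto (fun n => fs ε n t) atTop (𝓝 (fT ε hε t)) := by
  have h1 : Summable fun j => sq ε j * Real.cos ((Mch ε j (fs ε j) : ℝ) * t) := by
    refine Summable.of_norm_bounded (summable_sq (ε := ε)) fun j => ?_
    rw [Real.norm_eq_abs, abs_mul, abs_of_pos (sq_pos hε j)]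
    exact mul_le_of_le_one_right (sq_pos hε j).le (Real.abs_cos_le_one _)
  have h2 := (h1.hasSum.tendsto_sum_nat).const_add t
  refine h2.congr fun n => ?_
  rw [fs_eq]

theorem fT_diff {ε : ℝ} (hε : 0 < ε) (n : ℕ) (t : ℝ) : |fT ε hε t - fs ε n t| ≤ ε / 2 ^ n := by
  have h1 : Tendsto (fun m => |fs ε (n + m) t - fs ε n t|) atTop (𝓝 |fT ε hε t - fs ε n t|) := by
    have h2 := (fs_tendsto hε t).comp (tendsto_add_atTop_nat n)
    have h3 : Tendsto (fun m => fs ε (n + m) t) atTop (𝓝 (fT ε hε t)) := by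
      refine h2.congr fun m => ?_
      simp [Function.comp, add_comm]
    exact (h3.sub_const _).abs
  refine le_of_tendsto' h1 fun m => ?_
  have := fs_diff hε n m t
  have h2 : 0 ≤ ε / 2 ^ (n + m) := by positivity
  linarith

theorem fT_id {ε : ℝ} (hε : 0 < ε) (t : ℝ) : |fT ε hε t - t| ≤ ε := by
  have := fT_diff hε 0 t
  simpa [fs] using this

/-- The phase function of the limit operator. -/
def Zi (ε : ℝ) (hε : 0 < ε) (d : ℕ) (lam : ℝ) (z : ℂ) (v : (Fin d → ℤ) → ℝ) : ℂ :=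
  Zf (us (Measure.dirac 0) lam z (Kd (fT ε hε) d)) (fun x => cay (v x))

/-- Its real part. -/
def Ph (ε : ℝ) (hε : 0 < ε) (d : ℕ) (lam : ℝ) (z : ℂ) (v : (Fin d → ℤ) → ℝ) : ℝ :=
  2 * (Zi ε hε d lam z v).re - 1

theorem Adm.add {n d : ℕ} {lam : ℝ} {z : ℂ} (h : Adm n d lam z) (k : ℕ) : Adm (n + k) d lam z := by
  induction k with
  | zero => exact h
  | succ k ih => exact ih.succ

theorem Zi_lt (hC : S_CON) {ε : ℝ} (hε : 0 < ε) {n d : ℕ} {lam : ℝ} {z : ℂ}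
    (h : Adm n d lam z) (hz : 0 < z.im) :
    ∃ q : ℝ, 0 ≤ q ∧ q < 1 ∧ ‖us (Measure.dirac 0) lam z (Kd (fT ε hε) d)‖ ≤ q ∧
      ∀ k, ‖Us ε k 0 d lam z‖ ≤ q := by
  refine ⟨_, Real.sqrt_nonneg _, sqrt_lt (g := 4 * lam * z.im / Dn ε n ^ 2) ?_,
    Us_dirac_le hC hε h (fT_id hε), fun k => Us_dirac_le hC hε h (fs_id' hε k)⟩
  have := h.lam_pos
  have := Dn_pos hε n
  positivity

theorem integrable_Zi (hC : S_CON) (hZ : S_ZF) (hM : S_MZ) (hCay : S_CAY) {ε : ℝ} (hε : 0 < ε)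
    {n d : ℕ} {lam : ℝ} {z : ℂ} (h : Adm n d lam z) (hz : 0 < z.im) :
    Measurable (Zi ε hε d lam z) ∧ Integrable (Zi ε hε d lam z) (Pm (Fin d → ℤ)) := by
  obtain ⟨q, h0, h1, h2, -⟩ := Zi_lt hC hε h hz
  refine ⟨hM d _ q h0 h1 h2, Integrable.of_bound (C := 1 / (1 - q))
    (hM d _ q h0 h1 h2).aestronglyMeasurable (ae_of_all _ fun v => ?_)⟩
  exact (hZ d _ _ (fun x => cay (v x)) q h0 h1 h2 h2 (fun x => (hCay.1 _).le)).2.1

/-- Convergence of the levels. -/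
theorem Zi_close (hC : S_CON) (hZ : S_ZF) (hCay : S_CAY) {ε : ℝ} (hε : 0 < ε)
    {n d : ℕ} {lam : ℝ} {z : ℂ} (h : Adm n d lam z) (hz : 0 < z.im) (τ : ℝ) (hτ : 0 < τ) :
    ∃ k₀ : ℕ, ∀ k, k₀ ≤ k → ∀ v, ‖Zi ε hε d lam z v - Zr ε k 0 d lam z v‖ ≤ τ := by
  obtain ⟨q, h0, h1, h2, h3⟩ := Zi_lt hC hε h hz
  have hlam := h.lam_pos
  have hq : 0 < 1 - q := by linarith
  have hlim : Tendsto (fun k : ℕ => (2 / lam * (ε / 2 ^ k)) / (1 - q) ^ 2) atTop (𝓝 0) := by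
    have h4 : Tendsto (fun k : ℕ => ((1 : ℝ) / 2) ^ k) atTop (𝓝 0) :=
      tendsto_pow_atTop_nhds_zero_of_lt_one (by norm_num) (by norm_num)
    have h5 := h4.const_mul (2 / lam * ε / (1 - q) ^ 2)
    rw [mul_zero] at h5
    refine h5.congr fun k => ?_
    rw [one_div, inv_pow]; field_simp
  obtain ⟨k₀, hk₀⟩ := (hlim.eventually_lt_const hτ).exists_forall_of_atTop
  refine ⟨k₀, fun k hk v => ?_⟩
  refine ((hZ d _ _ (fun x => cay (v x)) q h0 h1 h2 (h3 k)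
    (fun x => (hCay.1 _).le)).2.2.1).trans ((le_trans ?_ (hk₀ k hk).le))
  gcongr
  have hnn : (0 : ℝ) ≤ 2 / lam * (ε / 2 ^ k) := by positivity
  rw [ContinuousMap.norm_le _ hnn]
  intro x
  rw [ContinuousMap.sub_apply, us_apply hC hε.le (dirac_supp hε) hlam hz.le]
  unfold Us rho
  rw [us_apply hC hε.le (dirac_supp hε) hlam hz.le]
  refine ((hC (Measure.dirac 0) ε hε.le (dirac_supp hε) lam hlam z hz.le).2.2.2.2.1 _ _).trans ?_
  gcongr
  exact fT_diff hε k _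

/-- Mean distance to the averaged model. -/
theorem mean_close (hC : S_CON) (hA : S_AVG) (hP : S_PH) (hZ : S_ZF) (hM : S_MZ) (hCay : S_CAY)
    {ε : ℝ} (hε : 0 < ε) {n d : ℕ} {lam : ℝ} {z : ℂ} (h : Adm n d lam z) (hz : 0 < z.im)
    (τ : ℝ) (hτ : 0 < τ) : ∃ m₀ : ℕ, ∀ m, m₀ ≤ m →
      ∫ v, ‖Zi ε hε d lam z v - Zr ε n m d lam z v‖ ∂(Pm (Fin d → ℤ))
        ≤ pp ε n / (32 * 8 ^ n) + τ := by
  obtain ⟨k₀, hk₀⟩ := Zi_close hC hZ hCay hε h hz τ hτ
  obtain ⟨k₁, hk₁⟩ : ∃ k₁ : ℕ, (1 / 2) ^ k₁ < z.im := exists_pow_lt_of_lt_one hz (by norm_num)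
  refine ⟨k₀ + k₁, fun m hm => ?_⟩
  have h1 : 1 / 2 ^ (n + m) ≤ z.im := by
    have h2 : (1 : ℝ) / 2 ^ (n + m) ≤ (1 / 2) ^ k₁ := by
      rw [one_div_pow]
      apply one_div_le_one_div_of_le (by positivity)
      exact pow_le_pow_right₀ (by norm_num) (by omega)
    linarith
  have i1 := (integrable_Zi hC hZ hM hCay hε h hz).2
  have i2 := integrable_Zr hC hZ hM hCay hε (h.add m) hz 0
  have i3 := integrable_Zr hC hZ hM hCay hε h hz m
  calc ∫ v, ‖Zi ε hε d lam z v - Zr ε n m d lam z v‖ ∂(Pm (Fin d → ℤ))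
      ≤ ∫ v, (‖Zi ε hε d lam z v - Zr ε (n + m) 0 d lam z v‖
          + ‖Zr ε (n + m) 0 d lam z v - Zr ε n m d lam z v‖) ∂(Pm (Fin d → ℤ)) := by
        refine integral_mono (i1.sub i3).norm ((i1.sub i2).norm.add (i2.sub i3).norm) fun v => ?_
        exact norm_sub_le_norm_sub_add_norm_sub _ _ _
    _ = ∫ v, ‖Zi ε hε d lam z v - Zr ε (n + m) 0 d lam z v‖ ∂(Pm (Fin d → ℤ))
        + ∫ v, ‖Zr ε (n + m) 0 d lam z v - Zr ε n m d lam z v‖ ∂(Pm (Fin d → ℤ)) :=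
        integral_add (i1.sub i2).norm (i2.sub i3).norm
    _ ≤ τ + pp ε n / (32 * 8 ^ n) := by
        refine add_le_add ?_ ((chain hC hA hP hZ hM hCay hε m h h1).trans (sum_de_le hε n m))
        calc ∫ v, ‖Zi ε hε d lam z v - Zr ε (n + m) 0 d lam z v‖ ∂(Pm (Fin d → ℤ))
            ≤ ∫ _, τ ∂(Pm (Fin d → ℤ)) :=
              integral_mono (i1.sub i2).norm (integrable_const _) fun v => hk₀ _ (by omega) v
          _ = τ := by simp
    _ = _ := by ring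

/-- Lipschitz dependence on the spectral parameter of the averaged model. -/
theorem Zr_lip (hC : S_CON) (hZ : S_ZF) (hCay : S_CAY) {ε : ℝ} (hε : 0 < ε)
    {n d : ℕ} {lam : ℝ} {z z' : ℂ} (h : Adm n d lam z) (h' : Adm n d lam z') (m : ℕ)
    (v : (Fin d → ℤ) → ℝ) :
    ‖Zr ε n (m + 1) d lam z v - Zr ε n (m + 1) d lam z' v‖ ≤ (2 / lam * ‖z - z'‖)
      / (1 - Real.sqrt (1 - 2 * lam ^ 2 * sq ε n ^ 2 / Dn ε n ^ 4)) ^ 2 := by
  have hlam := h.lam_pos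
  have hq1 := sqrt_lt (arc_gap_pos hε h)
  refine ((hZ d _ _ (fun x => cay (v x)) _ (Real.sqrt_nonneg _) hq1 (Us_arc_le hC hε h m)
    (Us_arc_le hC hε h' m) (fun x => (hCay.1 _).le)).2.2.1).trans ?_
  gcongr
  have hnn : (0 : ℝ) ≤ 2 / lam * ‖z - z'‖ := by positivity
  rw [ContinuousMap.norm_le _ hnn]
  intro x
  have := (rho_prop hC hε (m + 1) n).1
  rw [ContinuousMap.sub_apply]
  unfold Us
  rw [us_apply hC hε.le (rho_supp hC hε n (m + 1)) hlam h.2.2.2.2.2.1,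
    us_apply hC hε.le (rho_supp hC hε n (m + 1)) hlam h'.2.2.2.2.2.1]
  exact (hC _ ε hε.le (rho_supp hC hε n (m + 1)) lam hlam z h.2.2.2.2.2.1).2.2.2.2.2 _ _
    h'.2.2.2.2.2.1

/-- Positivity of the averaged model. -/
theorem Zr_pos (hC : S_CON) (hZ : S_ZF) (hCay : S_CAY) {ε : ℝ} (hε : 0 < ε)
    {n d : ℕ} {lam : ℝ} {z : ℂ} (h : Adm n d lam z) (m : ℕ) (v : (Fin d → ℤ) → ℝ) :
    2 * pp ε n ≤ 2 * (Zr ε n (m + 1) d lam z v).re - 1 := by
  have hlam := h.lam_pos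
  have hq1 := sqrt_lt (arc_gap_pos hε h)
  have h1 := (hZ d _ _ (fun x => cay (v x)) _ (Real.sqrt_nonneg _) hq1 (Us_arc_le hC hε h m)
    (Us_arc_le hC hε h m) (fun x => (hCay.1 _).le)).2.2.2.2
  refine le_trans ?_ h1
  have := (rho_prop hC hε m (n + 1)).1
  have h2 : 0 ≤ 1 - 2 * lam ^ 2 * sq ε n ^ 2 / Dn ε n ^ 4 := by
    have h3 := gap_arc hC hε h (fs_id' hε n) (rho_supp hC hε (n + 1) m) (sq_pos hε n).le
      (sq_le hε n) 0
    exact le_trans (by positivity) h3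
  rw [Real.sq_sqrt h2]
  have h3 := sq_pos hε n
  have h4 := Dn_pos hε n
  have h5 := h.2.2.1
  unfold pp
  have h6 : 2 * (sq ε n ^ 2 / (4 * ((n : ℝ) + 1) ^ 2 * Dn ε n ^ 4))
      = (1 - (1 - 2 * (1 / ((n : ℝ) + 1)) ^ 2 * sq ε n ^ 2 / Dn ε n ^ 4)) / 4 := by
    field_simp; ring
  rw [h6]
  have h7 : (0 : ℝ) ≤ 1 / ((n : ℝ) + 1) := by positivity
  gcongr

/-- Mean difference at two spectral parameters. -/
theorem mean_diff (hC : S_CON) (hA : S_AVG) (hP : S_PH) (hZ : S_ZF) (hM : S_MZ) (hCay : S_CAY)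
    {ε : ℝ} (hε : 0 < ε) {n d : ℕ} {lam : ℝ} {z z' : ℂ} (h : Adm n d lam z) (hz : 0 < z.im)
    (h' : Adm n d lam z') (hz' : 0 < z'.im) :
    ∫ v, |Ph ε hε d lam z v - Ph ε hε d lam z' v| ∂(Pm (Fin d → ℤ))
      ≤ pp ε n / (8 * 8 ^ n) + (4 / lam * ‖z - z'‖)
        / (1 - Real.sqrt (1 - 2 * lam ^ 2 * sq ε n ^ 2 / Dn ε n ^ 4)) ^ 2 := by
  refine le_of_forall_pos_le_add fun τ hτ => ?_
  obtain ⟨m₀, hm₀⟩ := mean_close hC hA hP hZ hM hCay hε h hz (τ / 4) (by positivity)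
  obtain ⟨m₁, hm₁⟩ := mean_close hC hA hP hZ hM hCay hε h' hz' (τ / 4) (by positivity)
  set m := m₀ + m₁ with hm
  have c1 := hm₀ (m + 1) (by omega)
  have c2 := hm₁ (m + 1) (by omega)
  have i1 := (integrable_Zi hC hZ hM hCay hε h hz).2
  have i1' := (integrable_Zi hC hZ hM hCay hε h' hz').2
  have i2 := integrable_Zr hC hZ hM hCay hε h hz (m + 1)
  have i2' := integrable_Zr hC hZ hM hCay hε h' hz' (m + 1)
  set L : ℝ := (2 / lam * ‖z - z'‖)
      / (1 - Real.sqrt (1 - 2 * lam ^ 2 * sq ε n ^ 2 / Dn ε n ^ 4)) ^ 2 with hL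
  have hLL : (4 / lam * ‖z - z'‖)
      / (1 - Real.sqrt (1 - 2 * lam ^ 2 * sq ε n ^ 2 / Dn ε n ^ 4)) ^ 2 = 2 * L := by
    rw [hL]; ring
  rw [hLL]
  have key : ∀ v, |Ph ε hε d lam z v - Ph ε hε d lam z' v|
      ≤ 2 * ‖Zi ε hε d lam z v - Zr ε n (m + 1) d lam z v‖
        + (2 * ‖Zi ε hε d lam z' v - Zr ε n (m + 1) d lam z' v‖ + 2 * L) := by
    intro v
    have e1 : Ph ε hε d lam z v - Ph ε hε d lam z' v
        = 2 * (Zi ε hε d lam z v - Zi ε hε d lam z' v).re := by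
      unfold Ph; rw [Complex.sub_re]; ring
    rw [e1, abs_mul, abs_two]
    have e2 := Complex.abs_re_le_norm (Zi ε hε d lam z v - Zi ε hε d lam z' v)
    have e3 : ‖Zi ε hε d lam z v - Zi ε hε d lam z' v‖
        ≤ ‖Zi ε hε d lam z v - Zr ε n (m + 1) d lam z v‖
          + ‖Zr ε n (m + 1) d lam z v - Zr ε n (m + 1) d lam z' v‖
          + ‖Zr ε n (m + 1) d lam z' v - Zi ε hε d lam z' v‖ := by
      have : Zi ε hε d lam z v - Zi ε hε d lam z' v
          = (Zi ε hε d lam z v - Zr ε n (m + 1) d lam z v)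
          + (Zr ε n (m + 1) d lam z v - Zr ε n (m + 1) d lam z' v)
          + (Zr ε n (m + 1) d lam z' v - Zi ε hε d lam z' v) := by ring
      rw [this]
      exact norm_add₃_le
    rw [norm_sub_rev (Zr ε n (m + 1) d lam z' v)] at e3
    have e4 := Zr_lip hC hZ hCay hε h h' m v
    linarith
  calc ∫ v, |Ph ε hε d lam z v - Ph ε hε d lam z' v| ∂(Pm (Fin d → ℤ))
      ≤ ∫ v, (2 * ‖Zi ε hε d lam z v - Zr ε n (m + 1) d lam z v‖
        + (2 * ‖Zi ε hε d lam z' v - Zr ε n (m + 1) d lam z' v‖ + 2 * L)) ∂(Pm (Fin d → ℤ)) := by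
        refine integral_mono ?_ (((i1.sub i2).norm.const_mul 2).add
          (((i1'.sub i2').norm.const_mul 2).add (integrable_const _))) key
        refine ((((i1.re).const_mul 2).sub (integrable_const 1)).sub
          (((i1'.re).const_mul 2).sub (integrable_const 1))).abs
    _ = 2 * ∫ v, ‖Zi ε hε d lam z v - Zr ε n (m + 1) d lam z v‖ ∂(Pm (Fin d → ℤ))
        + (2 * ∫ v, ‖Zi ε hε d lam z' v - Zr ε n (m + 1) d lam z' v‖ ∂(Pm (Fin d → ℤ))
          + 2 * L) := by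
        have j1 : Integrable (fun v => 2 * ‖Zi ε hε d lam z v - Zr ε n (m + 1) d lam z v‖)
            (Pm (Fin d → ℤ)) := (i1.sub i2).norm.const_mul 2
        have j2 : Integrable (fun v => 2 * ‖Zi ε hε d lam z' v - Zr ε n (m + 1) d lam z' v‖)
            (Pm (Fin d → ℤ)) := (i1'.sub i2').norm.const_mul 2
        have j3 : Integrable (fun v => 2 * ‖Zi ε hε d lam z' v - Zr ε n (m + 1) d lam z' v‖
            + 2 * L) (Pm (Fin d → ℤ)) := j2.add (integrable_const _)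
        rw [integral_add j1 j3, integral_add j2 (integrable_const _),
          integral_const_mul, integral_const_mul]
        simp
    _ ≤ 2 * (pp ε n / (32 * 8 ^ n) + τ / 4) + (2 * (pp ε n / (32 * 8 ^ n) + τ / 4) + 2 * L) := by
        gcongr
    _ = pp ε n / (8 * 8 ^ n) + 2 * L + τ := by
        have : pp ε n / (32 * 8 ^ n) = pp ε n / (8 * 8 ^ n) / 4 := by
          field_simp; ring
        rw [this]; ring

/-- The phase function is rarely small. -/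
theorem rarely_small (hC : S_CON) (hA : S_AVG) (hP : S_PH) (hZ : S_ZF) (hM : S_MZ)
    (hCay : S_CAY) {ε : ℝ} (hε : 0 < ε) {n d : ℕ} {lam : ℝ} {z : ℂ} (h : Adm n d lam z)
    (hz : 0 < z.im) :
    ((Pm (Fin d → ℤ)) {v | Ph ε hε d lam z v < pp ε n}).toReal ≤ 1 / (8 * 8 ^ n) := by
  have hp := pp_pos hε n
  obtain ⟨m₀, hm₀⟩ := mean_close hC hA hP hZ hM hCay hε h hz (pp ε n / (32 * 8 ^ n))
    (by positivity)
  have c1 := hm₀ (m₀ + 1) (by omega)
  have i1 := (integrable_Zi hC hZ hM hCay hε h hz).2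
  have i2 := integrable_Zr hC hZ hM hCay hε h hz (m₀ + 1)
  have hsub : {v | Ph ε hε d lam z v < pp ε n} ⊆
      {v | pp ε n / 2 ≤ ‖Zi ε hε d lam z v - Zr ε n (m₀ + 1) d lam z v‖} := by
    intro v hv
    have h1 := Zr_pos hC hZ hCay hε h m₀ v
    have h2 : Ph ε hε d lam z v < pp ε n := hv
    have h3 := Complex.abs_re_le_norm (Zi ε hε d lam z v - Zr ε n (m₀ + 1) d lam z v)
    rw [Complex.sub_re] at h3
    have h4 := neg_abs_le ((Zi ε hε d lam z v).re - (Zr ε n (m₀ + 1) d lam z v).re)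
    unfold Ph at h2
    change pp ε n / 2 ≤ _
    linarith
  have hmk := mul_meas_ge_le_integral_of_nonneg (μ := Pm (Fin d → ℤ))
    (ae_of_all _ fun v => norm_nonneg (Zi ε hε d lam z v - Zr ε n (m₀ + 1) d lam z v))
    (i1.sub i2).norm (pp ε n / 2)
  have h5 : ((Pm (Fin d → ℤ)) {v | Ph ε hε d lam z v < pp ε n}).toReal
      ≤ ((Pm (Fin d → ℤ)) {v | pp ε n / 2
        ≤ ‖Zi ε hε d lam z v - Zr ε n (m₀ + 1) d lam z v‖}).toReal :=
    ENNReal.toReal_mono (measure_ne_top _ _) (measure_mono hsub)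
  refine h5.trans ?_
  have h6 : (pp ε n / 2) * ((Pm (Fin d → ℤ)) {v | pp ε n / 2
        ≤ ‖Zi ε hε d lam z v - Zr ε n (m₀ + 1) d lam z v‖}).toReal
      ≤ pp ε n / (32 * 8 ^ n) + pp ε n / (32 * 8 ^ n) := by
    refine le_trans ?_ c1
    exact hmk
  have h7 : pp ε n / (32 * 8 ^ n) + pp ε n / (32 * 8 ^ n)
      = (pp ε n / 2) * (1 / (8 * 8 ^ n)) := by field_simp; norm_num
  rw [h7] at h6
  exact le_of_mul_le_mul_left h6 (by positivity)

end

end Pool.Agent.W792.LL.Fn
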